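import Mathlib

/-!
# An entropy form of the edge-isoperimetric inequality in Cayley graphs of `F_2^n`

For an independent set `b_1, …, b_r` with dual functionals, and nonnegative functions `f, g`,
`∑_i ∑_x φ(f x, g (x + b_i)) ≤ η(∑ f + ∑ g) - ∑ η(f) - ∑ η(g)`, with `η(x) = x log x` and
`φ(a, b) = η(a + b) - η(a) - η(b)`.
-/

set_option autoImplicit false

open Finset

namespace Pool.Agent.Helper64.Cayley

/-- `x log x` -/
noncomputable def eta (x : ℝ) : ℝ := x * Real.log x

/-- `φ(a, b) = η(a + b) - η(a) - η(b)` -/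
noncomputable def phi (a b : ℝ) : ℝ := eta (a + b) - eta a - eta b

theorem eta_zero : eta 0 = 0 := by simp [eta]
theorem eta_one : eta 1 = 0 := by simp [eta]

theorem phi_zero_right (a : ℝ) : phi a 0 = 0 := by simp [phi, eta]
theorem phi_zero_left (b : ℝ) : phi 0 b = 0 := by simp [phi, eta]
theorem phi_comm (a b : ℝ) : phi a b = phi b a := by unfold phi; rw [add_comm a b]; ring

theorem key_tangent {a s c : ℝ} (ha : 0 ≤ a) (hs : 0 < s) (hc : 0 < c) :
    a * Real.log c + a - c * s ≤ a * Real.log a - a * Real.log s := by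
  rcases ha.eq_or_lt with h | h
  · subst h
    have : 0 < c * s := mul_pos hc hs
    simp; linarith
  · have hx : 0 < a / (c * s) := div_pos h (mul_pos hc hs)
    have h1 := Real.one_sub_inv_le_log_of_pos hx
    have h2 : Real.log (a / (c * s)) = Real.log a - (Real.log c + Real.log s) := by
      rw [Real.log_div h.ne' (mul_pos hc hs).ne', Real.log_mul hc.ne' hs.ne']
    rw [h2] at h1
    have h3 : a * (1 - (a / (c * s))⁻¹) ≤ a * (Real.log a - (Real.log c + Real.log s)) :=
      mul_le_mul_of_nonneg_left h1 h.le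
    have h4 : a * (1 - (a / (c * s))⁻¹) = a - c * s := by
      field_simp
    rw [h4] at h3
    linarith

theorem phi_superadd {a b a' b' : ℝ} (ha : 0 ≤ a) (hb : 0 ≤ b) (ha' : 0 ≤ a') (hb' : 0 ≤ b') :
    phi a b + phi a' b' ≤ phi (a + a') (b + b') := by
  rcases ha.eq_or_lt with h1 | h1
  · subst h1
    rcases ha'.eq_or_lt with h2 | h2
    · subst h2; simp [phi_zero_left]
    -- a = 0, a' > 0
    rw [phi_zero_left, zero_add, zero_add]
    -- phi a' b' ≤ phi a' (b + b')
    rcases hb.eq_or_lt with h3 | h3
    · subst h3; simp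
    have hs' : 0 < a' + b' := by linarith
    have hs : 0 < b := h3
    have hS : 0 < b + (a' + b') := by linarith
    have hc : 0 < a' / (b + (a' + b')) := div_pos h2 hS
    have hc' : 0 < (b + b') / (b + (a' + b')) := div_pos (by linarith) hS
    have k1 := key_tangent (le_refl (0 : ℝ)) hs hc
    have k2 := key_tangent ha' hs' hc
    have k3 := key_tangent hb hs hc'
    have k4 := key_tangent hb' hs' hc'
    have l1 : Real.log (a' / (b + (a' + b'))) = Real.log a' - Real.log (b + (a' + b')) :=
      Real.log_div h2.ne' hS.ne'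
    have l2 : Real.log ((b + b') / (b + (a' + b'))) =
        Real.log (b + b') - Real.log (b + (a' + b')) :=
      Real.log_div (by linarith) hS.ne'
    rw [l1] at k2
    rw [l2] at k3 k4
    have e1 : a' / (b + (a' + b')) * b + a' / (b + (a' + b')) * (a' + b') = a' := by
      field_simp
    have e2 : (b + b') / (b + (a' + b')) * b + (b + b') / (b + (a' + b')) * (a' + b') = b + b' := by
      field_simp
    unfold phi eta
    have e3 : a' + (b + b') = b + (a' + b') := by ring
    rw [e3]
    nlinarith [k1, k2, k3, k4, e1, e2]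
  · rcases hb.eq_or_lt with h2 | h2
    · subst h2
      rw [phi_zero_right, zero_add, zero_add]
      rcases hb'.eq_or_lt with h3 | h3
      · subst h3; simp [phi_zero_right]
      rcases ha'.eq_or_lt with h4 | h4
      · subst h4; rw [phi_zero_left]
        -- 0 ≤ phi (a + 0) b'
        have hS : 0 < a + b' := by linarith
        unfold phi eta
        rw [add_zero]
        have : Real.log a ≤ Real.log (a + b') := Real.log_le_log h1 (by linarith)
        have h5 : Real.log b' ≤ Real.log (a + b') := Real.log_le_log h3 (by linarith)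
        nlinarith
      have hs' : 0 < a' + b' := by linarith
      have hS : 0 < a + (a' + b') := by linarith
      have hc : 0 < (a + a') / (a + (a' + b')) := div_pos (by linarith) hS
      have hc' : 0 < b' / (a + (a' + b')) := div_pos h3 hS
      have k1 := key_tangent ha h1 hc
      have k2 := key_tangent ha' hs' hc
      have k3 := key_tangent (le_refl (0 : ℝ)) h1 hc'
      have k4 := key_tangent hb' hs' hc'
      have l1 : Real.log ((a + a') / (a + (a' + b'))) =
          Real.log (a + a') - Real.log (a + (a' + b')) := Real.log_div (by linarith) hS.ne'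
      have l2 : Real.log (b' / (a + (a' + b'))) = Real.log b' - Real.log (a + (a' + b')) :=
        Real.log_div h3.ne' hS.ne'
      rw [l1] at k1 k2
      rw [l2] at k4
      have e1 : (a + a') / (a + (a' + b')) * a + (a + a') / (a + (a' + b')) * (a' + b') =
          a + a' := by field_simp
      have e2 : b' / (a + (a' + b')) * a + b' / (a + (a' + b')) * (a' + b') = b' := by
        field_simp
      unfold phi eta
      have e3 : a + a' + b' = a + (a' + b') := by ring
      rw [e3]
      nlinarith [k1, k2, k3, k4, e1, e2]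
    · -- a > 0, b > 0
      rcases (add_nonneg ha' hb').eq_or_lt with h3 | h3
      · have h4 : a' = 0 := by linarith
        have h5 : b' = 0 := by linarith
        subst h4; subst h5; simp [phi_zero_left]
      have hs : 0 < a + b := by linarith
      have hS : 0 < (a + b) + (a' + b') := by linarith
      have hc : 0 < (a + a') / ((a + b) + (a' + b')) := div_pos (by linarith) hS
      have hc' : 0 < (b + b') / ((a + b) + (a' + b')) := div_pos (by linarith) hS
      have k1 := key_tangent ha hs hc
      have k2 := key_tangent ha' h3 hc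
      have k3 := key_tangent hb hs hc'
      have k4 := key_tangent hb' h3 hc'
      have l1 : Real.log ((a + a') / ((a + b) + (a' + b'))) =
          Real.log (a + a') - Real.log ((a + b) + (a' + b')) :=
        Real.log_div (by linarith) hS.ne'
      have l2 : Real.log ((b + b') / ((a + b) + (a' + b'))) =
          Real.log (b + b') - Real.log ((a + b) + (a' + b')) :=
        Real.log_div (by linarith) hS.ne'
      rw [l1] at k1 k2
      rw [l2] at k3 k4
      have e1 : (a + a') / ((a + b) + (a' + b')) * (a + b) +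
          (a + a') / ((a + b) + (a' + b')) * (a' + b') = a + a' := by field_simp
      have e2 : (b + b') / ((a + b) + (a' + b')) * (a + b) +
          (b + b') / ((a + b) + (a' + b')) * (a' + b') = b + b' := by field_simp
      unfold phi eta
      have e3 : a + a' + (b + b') = (a + b) + (a' + b') := by ring
      rw [e3]
      nlinarith [k1, k2, k3, k4, e1, e2]

theorem phi_sum {ι : Type*} (s : Finset ι) (a b : ι → ℝ) (ha : ∀ i, 0 ≤ a i)
    (hb : ∀ i, 0 ≤ b i) : ∑ i ∈ s, phi (a i) (b i) ≤ phi (∑ i ∈ s, a i) (∑ i ∈ s, b i) := by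
  classical
  induction s using Finset.induction_on with
  | empty => simp [phi_zero_left]
  | insert i s hi ih =>
    rw [Finset.sum_insert hi, Finset.sum_insert hi, Finset.sum_insert hi]
    calc phi (a i) (b i) + ∑ j ∈ s, phi (a j) (b j)
        ≤ phi (a i) (b i) + phi (∑ j ∈ s, a j) (∑ j ∈ s, b j) := by linarith
      _ ≤ _ := phi_superadd (ha i) (hb i) (Finset.sum_nonneg fun j _ => ha j)
          (Finset.sum_nonneg fun j _ => hb j)

theorem phi_nonneg {a b : ℝ} (ha : 0 ≤ a) (hb : 0 ≤ b) : 0 ≤ phi a b := by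
  have := phi_superadd ha (le_refl 0) (le_refl 0) hb
  simpa [phi_zero_left, phi_zero_right] using this

theorem eta_sum {ι : Type*} (s : Finset ι) (a : ι → ℝ) (ha : ∀ i, 0 ≤ a i) :
    ∑ i ∈ s, eta (a i) ≤ eta (∑ i ∈ s, a i) := by
  classical
  induction s using Finset.induction_on with
  | empty => simp [eta_zero]
  | insert i s hi ih =>
    rw [Finset.sum_insert hi, Finset.sum_insert hi]
    have h := phi_nonneg (ha i) (Finset.sum_nonneg fun j (_ : j ∈ s) => ha j)
    unfold phi at h
    linarith

variable {V : Type*} [AddCommGroup V] [Fintype V]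

/-- The functional inequality. -/
theorem iso_fun {ι : Type*} (s : Finset ι) (b : ι → V) (l : ι → V → ZMod 2)
    (hl : ∀ i ∈ s, ∀ x y, l i (x + y) = l i x + l i y)
    (h1 : ∀ i ∈ s, l i (b i) = 1) (h0 : ∀ i ∈ s, ∀ j ∈ s, i ≠ j → l i (b j) = 0)
    (f g : V → ℝ) (hf : ∀ x, 0 ≤ f x) (hg : ∀ x, 0 ≤ g x) :
    ∑ i ∈ s, ∑ x, phi (f x) (g (x + b i)) ≤
      eta (∑ x, f x + ∑ x, g x) - ∑ x, eta (f x) - ∑ x, eta (g x) := by
  classical
  induction s using Finset.induction_on generalizing f g with
  | empty =>
    rw [Finset.sum_empty]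
    have k1 := eta_sum Finset.univ f hf
    have k2 := eta_sum Finset.univ g hg
    have k3 := phi_nonneg (Finset.sum_nonneg fun j (_ : j ∈ (univ : Finset V)) => hf j)
      (Finset.sum_nonneg fun j (_ : j ∈ (univ : Finset V)) => hg j)
    unfold phi at k3
    linarith
  | insert i s hi ih =>
    have ih' := ih (fun j hj => hl j (mem_insert_of_mem hj))
      (fun j hj => h1 j (mem_insert_of_mem hj))
      (fun j hj j' hj' => h0 j (mem_insert_of_mem hj) j' (mem_insert_of_mem hj'))
    have hli := hl i (mem_insert_self i s)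
    have h1i := h1 i (mem_insert_self i s)
    set f0 : V → ℝ := fun x => if l i x = 0 then f x else 0 with hf0
    set f1 : V → ℝ := fun x => if l i x = 0 then 0 else f x with hf1
    set g0 : V → ℝ := fun x => if l i x = 0 then g x else 0 with hg0
    set g1 : V → ℝ := fun x => if l i x = 0 then 0 else g x with hg1
    have nf0 : ∀ x, 0 ≤ f0 x := fun x => by simp only [hf0]; split_ifs; exacts [hf x, le_refl _]
    have nf1 : ∀ x, 0 ≤ f1 x := fun x => by simp only [hf1]; split_ifs; exacts [le_refl _, hf x]
    have ng0 : ∀ x, 0 ≤ g0 x := fun x => by simp only [hg0]; split_ifs; exacts [hg x, le_refl _]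
    have ng1 : ∀ x, 0 ≤ g1 x := fun x => by simp only [hg1]; split_ifs; exacts [le_refl _, hg x]
    have sf : ∀ x, f x = f0 x + f1 x := fun x => by simp only [hf0, hf1]; split_ifs <;> simp
    have sg : ∀ x, g x = g0 x + g1 x := fun x => by simp only [hg0, hg1]; split_ifs <;> simp
    have ef : ∀ x, eta (f x) = eta (f0 x) + eta (f1 x) := fun x => by
      simp only [hf0, hf1]; split_ifs <;> simp [eta_zero]
    have eg : ∀ x, eta (g x) = eta (g0 x) + eta (g1 x) := fun x => by
      simp only [hg0, hg1]; split_ifs <;> simp [eta_zero]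
    -- terms for j in s
    have hj : ∀ j ∈ s, ∑ x, phi (f x) (g (x + b j)) =
        ∑ x, phi (f0 x) (g0 (x + b j)) + ∑ x, phi (f1 x) (g1 (x + b j)) := by
      intro j hj
      rw [← Finset.sum_add_distrib]
      refine Finset.sum_congr rfl fun x _ => ?_
      have hne : i ≠ j := fun h => hi (h ▸ hj)
      have hx : l i (x + b j) = l i x := by
        rw [hli, h0 i (mem_insert_self i s) j (mem_insert_of_mem hj) hne, add_zero]
      simp only [hf0, hf1, hg0, hg1, hx]
      split_ifs <;> simp [phi_zero_left]
    have hi' : ∑ x, phi (f x) (g (x + b i)) =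
        ∑ x, phi (f0 x) (g1 (x + b i)) + ∑ x, phi (f1 x) (g0 (x + b i)) := by
      rw [← Finset.sum_add_distrib]
      refine Finset.sum_congr rfl fun x _ => ?_
      have hx : l i (x + b i) = l i x + 1 := by rw [hli, h1i]
      have h01 : ∀ t : ZMod 2, t = 0 ∨ t = 1 := by decide
      have h11 : (1 : ZMod 2) + 1 = 0 := by decide
      have h10 : (1 : ZMod 2) ≠ 0 := by decide
      rcases h01 (l i x) with h | h
      · simp [hf0, hf1, hg0, hg1, hx, h, phi_zero_left]
      · simp [hf0, hf1, hg0, hg1, hx, h, h11, phi_zero_left]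
    have tr : ∀ (u : V → ℝ) (c : V), ∑ x, u (x + c) = ∑ x, u x := fun u c =>
      Equiv.sum_comp (Equiv.addRight c) u
    have a1 := phi_sum Finset.univ f0 (fun x => g1 (x + b i)) nf0 (fun x => ng1 _)
    have a2 := phi_sum Finset.univ f1 (fun x => g0 (x + b i)) nf1 (fun x => ng0 _)
    rw [tr g1 (b i)] at a1
    rw [tr g0 (b i)] at a2
    have b0 := ih' f0 g0 nf0 ng0
    have b1 := ih' f1 g1 nf1 ng1
    rw [Finset.sum_insert hi, hi', Finset.sum_congr rfl hj, Finset.sum_add_distrib]
    have c0 : ∑ x, f x = ∑ x, f0 x + ∑ x, f1 x := by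
      rw [← Finset.sum_add_distrib]; exact Finset.sum_congr rfl fun x _ => sf x
    have c1 : ∑ x, g x = ∑ x, g0 x + ∑ x, g1 x := by
      rw [← Finset.sum_add_distrib]; exact Finset.sum_congr rfl fun x _ => sg x
    have c2 : ∑ x, eta (f x) = ∑ x, eta (f0 x) + ∑ x, eta (f1 x) := by
      rw [← Finset.sum_add_distrib]; exact Finset.sum_congr rfl fun x _ => ef x
    have c3 : ∑ x, eta (g x) = ∑ x, eta (g0 x) + ∑ x, eta (g1 x) := by
      rw [← Finset.sum_add_distrib]; exact Finset.sum_congr rfl fun x _ => eg x
    rw [c0, c1, c2, c3]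
    have F0 : 0 ≤ ∑ x, f0 x := Finset.sum_nonneg fun x _ => nf0 x
    have F1 : 0 ≤ ∑ x, f1 x := Finset.sum_nonneg fun x _ => nf1 x
    have G0 : 0 ≤ ∑ x, g0 x := Finset.sum_nonneg fun x _ => ng0 x
    have G1 : 0 ≤ ∑ x, g1 x := Finset.sum_nonneg fun x _ => ng1 x
    have d := phi_superadd F0 G1 G0 F1
    rw [phi_comm (∑ x, g0 x) (∑ x, f1 x)] at d
    have e : ∑ x, f0 x + ∑ x, f1 x + (∑ x, g0 x + ∑ x, g1 x) =
        (∑ x, f0 x + ∑ x, g0 x) + (∑ x, g1 x + ∑ x, f1 x) := by ring
    rw [e]
    have e2 : ∑ x, g1 x + ∑ x, f1 x = ∑ x, f1 x + ∑ x, g1 x := by ring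
    unfold phi at d a1 a2 ⊢
    rw [e2] at d ⊢
    unfold phi at b0 b1
    linarith

end Pool.Agent.Helper64.Cayley
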