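import Mathlib
import Pool.Agent.Helper64.Iso

/-!
# Counting form of the edge-isoperimetric inequality
-/

set_option autoImplicit false

open Finset

namespace Pool.Agent.Helper64.Cayley

variable {V : Type*} [AddCommGroup V] [Module (ZMod 2) V] [Fintype V] [DecidableEq V]

/-- number of pairs `(b, x)` with `b ∈ B`, `x ∈ X`, `x + b ∈ T` -/
def edges (B X T : Finset V) : ℕ := ∑ b ∈ B, (X.filter (fun x => x + b ∈ T)).card

theorem exists_dual (B : Finset V) (hB : LinearIndepOn (ZMod 2) id (B : Set V)) :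
    ∃ l : V → V → ZMod 2, (∀ i ∈ B, ∀ x y, l i (x + y) = l i x + l i y) ∧
      (∀ i ∈ B, l i i = 1) ∧ (∀ i ∈ B, ∀ j ∈ B, i ≠ j → l i j = 0) := by
  classical
  set bs := Module.Basis.extend hB with hbs
  have hsub : (B : Set V) ⊆ hB.extend (Set.subset_univ _) := hB.subset_extend _
  refine ⟨fun i x => if h : i ∈ B then bs.coord ⟨i, hsub h⟩ x else 0, ?_, ?_, ?_⟩
  · intro i hi x y
    simp only [hi, dif_pos]
    exact map_add _ _ _
  · intro i hi
    simp only [hi, dif_pos]
    have h1 : bs ⟨i, hsub hi⟩ = i := by rw [hbs, Module.Basis.extend_apply_self]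
    calc bs.coord ⟨i, hsub hi⟩ i = bs.coord ⟨i, hsub hi⟩ (bs ⟨i, hsub hi⟩) := by rw [h1]
      _ = 1 := by simp [Module.Basis.coord_apply]
  · intro i hi j hj hij
    simp only [hi, dif_pos]
    have h1 : bs ⟨j, hsub hj⟩ = j := by rw [hbs, Module.Basis.extend_apply_self]
    calc bs.coord ⟨i, hsub hi⟩ j = bs.coord ⟨i, hsub hi⟩ (bs ⟨j, hsub hj⟩) := by rw [h1]
      _ = 0 := by
        rw [Module.Basis.coord_apply, Module.Basis.repr_self, Finsupp.single_apply, if_neg]
        intro h
        exact hij (congrArg Subtype.val h).symm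

theorem iso_real (B X T : Finset V) (hB : LinearIndepOn (ZMod 2) id (B : Set V))
    (u : ℝ) (hu : 0 ≤ u) :
    (edges B X T : ℝ) * phi 1 u ≤
      eta ((X.card : ℝ) + u * T.card) - T.card * eta u := by
  classical
  obtain ⟨l, hl, h1, h0⟩ := exists_dual B hB
  have key := iso_fun B (fun i => i) l hl h1 h0
    (fun x => if x ∈ X then (1 : ℝ) else 0) (fun x => if x ∈ T then u else 0)
    (fun x => by split_ifs <;> norm_num)
    (fun x => by split_ifs <;> simp [hu])
  have e1 : ∀ b ∈ B, ∑ x : V, phi (if x ∈ X then (1 : ℝ) else 0) (if x + b ∈ T then u else 0) =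
      ((X.filter (fun x => x + b ∈ T)).card : ℝ) * phi 1 u := by
    intro b _
    have : ∀ x : V, phi (if x ∈ X then (1 : ℝ) else 0) (if x + b ∈ T then u else 0) =
        if x ∈ X ∧ x + b ∈ T then phi 1 u else 0 := by
      intro x
      by_cases hx : x ∈ X
      · by_cases ht : x + b ∈ T
        · simp [hx, ht]
        · simp [hx, ht, phi_zero_right]
      · simp [hx, phi_zero_left]
    rw [Finset.sum_congr rfl (fun x _ => this x), ← Finset.sum_filter, Finset.sum_const,
      nsmul_eq_mul]
    congr 2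
    congr 1
    ext x; simp
  rw [Finset.sum_congr rfl e1, ← Finset.sum_mul] at key
  have e2 : ∑ x : V, (if x ∈ X then (1 : ℝ) else 0) = X.card := by
    rw [← Finset.sum_filter]; simp
  have e3 : ∑ x : V, (if x ∈ T then u else 0) = u * T.card := by
    rw [← Finset.sum_filter, Finset.sum_const, nsmul_eq_mul]; simp; ring
  have e4 : ∑ x : V, eta (if x ∈ X then (1 : ℝ) else 0) = 0 := by
    apply Finset.sum_eq_zero
    intro x _; split_ifs <;> simp [eta_one, eta_zero]
  have e5 : ∑ x : V, eta (if x ∈ T then u else 0) = T.card * eta u := by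
    have : ∀ x : V, eta (if x ∈ T then u else 0) = if x ∈ T then eta u else 0 := by
      intro x; split_ifs <;> simp [eta_zero]
    rw [Finset.sum_congr rfl (fun x _ => this x), ← Finset.sum_filter, Finset.sum_const,
      nsmul_eq_mul]; simp
  rw [e2, e3, e4, e5, sub_zero] at key
  have e6 : ((edges B X T : ℕ) : ℝ) = ∑ i ∈ B, ((X.filter (fun x => x + i ∈ T)).card : ℝ) := by
    unfold edges; push_cast; rfl
  rw [e6]
  exact key

/-- Symmetric form. -/
theorem iso_one (B X T : Finset V) (hB : LinearIndepOn (ZMod 2) id (B : Set V)) (K : ℕ)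
    (hK : X.card + T.card ≤ 2 ^ K) :
    2 * edges B X T ≤ (X.card + T.card) * K := by
  have h := iso_real B X T hB 1 zero_le_one
  have hlog2 : 0 < Real.log 2 := Real.log_pos (by norm_num)
  have hphi : phi 1 1 = 2 * Real.log 2 := by unfold phi eta; norm_num
  rw [hphi, eta_one, mul_zero, sub_zero, one_mul] at h
  have hS : eta ((X.card : ℝ) + T.card) ≤ ((X.card : ℝ) + T.card) * (K * Real.log 2) := by
    unfold eta
    rcases Nat.eq_zero_or_pos (X.card + T.card) with h0 | h0
    · have : ((X.card : ℝ) + T.card) = 0 := by exact_mod_cast h0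
      rw [this]; simp
    · have hpos : (0 : ℝ) < (X.card : ℝ) + T.card := by exact_mod_cast h0
      apply mul_le_mul_of_nonneg_left _ hpos.le
      have hle : (X.card : ℝ) + T.card ≤ 2 ^ K := by exact_mod_cast hK
      calc Real.log ((X.card : ℝ) + T.card) ≤ Real.log (2 ^ K) := Real.log_le_log hpos hle
        _ = K * Real.log 2 := by rw [Real.log_pow]
  have h2 : (edges B X T : ℝ) * (2 * Real.log 2) ≤ ((X.card : ℝ) + T.card) * (K * Real.log 2) :=
    h.trans hS
  have h3 : (2 * (edges B X T : ℝ)) * Real.log 2 ≤ (((X.card : ℝ) + T.card) * K) * Real.log 2 := by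
    nlinarith
  have h4 := le_of_mul_le_mul_right h3 hlog2
  exact_mod_cast h4

/-- Lopsided form. -/
theorem iso_two (B X T : Finset V) (hB : LinearIndepOn (ZMod 2) id (B : Set V)) (K s : ℕ)
    (hK : X.card + T.card ≤ 2 ^ K) :
    edges B X T * s ≤ (2 ^ s * X.card + T.card) * K + T.card * s := by
  set u : ℝ := (1 / 2) ^ s with hu
  have hu0 : 0 < u := by positivity
  have hu1 : u ≤ 1 := by rw [hu]; exact pow_le_one₀ (by norm_num) (by norm_num)
  have hlog2 : 0 < Real.log 2 := Real.log_pos (by norm_num)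
  have hlogu : Real.log u = -(s * Real.log 2) := by
    rw [hu, Real.log_pow]; rw [one_div, Real.log_inv]; ring
  have h := iso_real B X T hB u hu0.le
  have hphi : u * (s * Real.log 2) ≤ phi 1 u := by
    unfold phi
    rw [eta_one]
    have h1 : 0 ≤ eta (1 + u) := by
      unfold eta; exact mul_nonneg (by linarith) (Real.log_nonneg (by linarith))
    have h2 : eta u = -(u * (s * Real.log 2)) := by unfold eta; rw [hlogu]; ring
    linarith
  have hS : eta ((X.card : ℝ) + u * T.card) ≤ ((X.card : ℝ) + u * T.card) * (K * Real.log 2) := by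
    unfold eta
    have hnn : 0 ≤ (X.card : ℝ) + u * T.card := by positivity
    rcases hnn.eq_or_lt with h0 | h0
    · rw [← h0]; simp
    · apply mul_le_mul_of_nonneg_left _ hnn
      have hle : (X.card : ℝ) + T.card ≤ 2 ^ K := by exact_mod_cast hK
      have hle' : (X.card : ℝ) + u * T.card ≤ 2 ^ K := by
        have : u * (T.card : ℝ) ≤ 1 * T.card := mul_le_mul_of_nonneg_right hu1 (by positivity)
        linarith
      calc Real.log ((X.card : ℝ) + u * T.card) ≤ Real.log (2 ^ K) := Real.log_le_log h0 hle'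
        _ = K * Real.log 2 := by rw [Real.log_pow]
  have hE : (edges B X T : ℝ) * (u * (s * Real.log 2)) ≤ (edges B X T : ℝ) * phi 1 u :=
    mul_le_mul_of_nonneg_left hphi (by positivity)
  have heta : eta u = -(u * (s * Real.log 2)) := by unfold eta; rw [hlogu]; ring
  rw [heta] at h
  have h2 : ((edges B X T : ℝ) * (u * s)) * Real.log 2 ≤
      (((X.card : ℝ) + u * T.card) * K + T.card * (u * s)) * Real.log 2 := by
    nlinarith
  have h3 := le_of_mul_le_mul_right h2 hlog2
  have hu2 : (2 : ℝ) ^ s * u = 1 := by rw [hu, ← mul_pow]; norm_num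
  have h4 : (2 : ℝ) ^ s * ((edges B X T : ℝ) * (u * s)) ≤
      (2 : ℝ) ^ s * (((X.card : ℝ) + u * T.card) * K + T.card * (u * s)) :=
    mul_le_mul_of_nonneg_left h3 (by positivity)
  have h5 : (2 : ℝ) ^ s * ((edges B X T : ℝ) * (u * s)) = edges B X T * s := by
    calc (2 : ℝ) ^ s * ((edges B X T : ℝ) * (u * s)) =
        ((2 : ℝ) ^ s * u) * (edges B X T * s) := by ring
      _ = _ := by rw [hu2, one_mul]
  have h6 : (2 : ℝ) ^ s * (((X.card : ℝ) + u * T.card) * K + T.card * (u * s)) =
      ((2 : ℝ) ^ s * X.card + T.card) * K + T.card * s := by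
    calc (2 : ℝ) ^ s * (((X.card : ℝ) + u * T.card) * K + T.card * (u * s)) =
        ((2 : ℝ) ^ s * X.card + ((2 : ℝ) ^ s * u) * T.card) * K
          + ((2 : ℝ) ^ s * u) * (T.card * s) := by ring
      _ = _ := by rw [hu2, one_mul, one_mul]
  rw [h5, h6] at h4
  exact_mod_cast h4

end Pool.Agent.Helper64.Cayley
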