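import Mathlib
import Pool.Agent.Helper64.IsoCount

/-!
# Structure of sets with few sums, part 1: extremal choices
-/

set_option autoImplicit false
set_option linter.unusedSectionVars false

open Finset
open scoped Pointwise

namespace Pool.Agent.Helper64.Cayley

variable {V : Type*} [AddCommGroup V] [Module (ZMod 2) V] [Fintype V] [DecidableEq V]

/-- dimension of the linear span -/
noncomputable def rk (Z : Finset V) : ℕ :=
  Module.finrank (ZMod 2) (Submodule.span (ZMod 2) (Z : Set V))

theorem rk_mono {Y X : Finset V} (h : Y ⊆ X) : rk Y ≤ rk X :=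
  Submodule.finrank_mono (Submodule.span_mono (by exact_mod_cast h))

theorem rk_le_finrank (X : Finset V) : rk X ≤ Module.finrank (ZMod 2) V :=
  Submodule.finrank_le _

theorem card_le_two_pow_rk (X : Finset V) : X.card ≤ 2 ^ rk X := by
  classical
  have h1 : Fintype.card (Submodule.span (ZMod 2) (X : Set V)) = 2 ^ rk X := by
    rw [Module.card_eq_pow_finrank (K := ZMod 2), ZMod.card]; rfl
  rw [← h1, ← Fintype.card_coe]
  refine Fintype.card_le_of_injective
    (fun x : X => (⟨x.1, Submodule.subset_span (by exact_mod_cast x.2)⟩ :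
      Submodule.span (ZMod 2) (X : Set V))) ?_
  intro x y h
  exact Subtype.ext (congrArg (fun z : Submodule.span (ZMod 2) (X : Set V) => (z : V)) h)

theorem exists_indep_subset (Y : Finset V) (b : ℕ) (hb : b ≤ rk Y) :
    ∃ B ⊆ Y, B.card = b ∧ LinearIndepOn (ZMod 2) id (B : Set V) := by
  classical
  obtain ⟨s, hs, hspan, hind⟩ := exists_linearIndependent (ZMod 2) (Y : Set V)
  have hfin : s.Finite := Set.toFinite s
  have hind' : LinearIndepOn (ZMod 2) id s := hind
  have hcard : hfin.toFinset.card = rk Y := by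
    unfold rk
    rw [← hspan]
    have : Fintype s := hfin.fintype
    rw [finrank_span_set_eq_card hind', ← Set.Finite.toFinset_eq_toFinset hfin]
  obtain ⟨B, hB, hBc⟩ := Finset.exists_subset_card_eq (hb.trans_eq hcard.symm)
  refine ⟨B, ?_, hBc, ?_⟩
  · intro x hx
    have := hB hx
    rw [Set.Finite.mem_toFinset] at this
    exact_mod_cast hs this
  · apply hind'.mono
    intro x hx
    have := hB (by exact_mod_cast hx)
    rwa [Set.Finite.mem_toFinset] at this

theorem exists_penalized (X : Finset V) (a n : ℕ) (hn : 0 < n) (hr : rk X ≤ n) :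
    ∃ X₁ ⊆ X, a * X.card ≤ a * X₁.card + X.card ∧
      ∀ Y ⊆ X₁, X.card * rk X₁ ≤ X.card * rk Y + a * n * (X₁ \ Y).card := by
  obtain ⟨X₁, hX₁, hmax⟩ := Finset.exists_max_image X.powerset
    (fun Y => ((a * n * Y.card : ℕ) : ℤ) - ((X.card * rk Y : ℕ) : ℤ)) ⟨X, mem_powerset_self X⟩
  rw [mem_powerset] at hX₁
  refine ⟨X₁, hX₁, ?_, ?_⟩
  · have h := hmax X (mem_powerset_self X)
    have h2 : X.card * rk X ≤ X.card * n := Nat.mul_le_mul_left _ hr
    have h3 : a * n * X.card ≤ a * n * X₁.card + X.card * n := by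
      zify at h2 ⊢
      push_cast at h
      have : (0 : ℤ) ≤ (X.card : ℤ) * (rk X₁ : ℤ) := by positivity
      linarith
    have h4 : n * (a * X.card) ≤ n * (a * X₁.card + X.card) := by
      calc n * (a * X.card) = a * n * X.card := by ring
        _ ≤ a * n * X₁.card + X.card * n := h3
        _ = n * (a * X₁.card + X.card) := by ring
    exact Nat.le_of_mul_le_mul_left h4 hn
  · intro Y hY
    have h := hmax Y (mem_powerset.2 (hY.trans hX₁))
    have hc : (X₁ \ Y).card + Y.card = X₁.card := by
      rw [Finset.card_sdiff_add_card_eq_card hY]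
    have h3 : a * n * X₁.card = a * n * (X₁ \ Y).card + a * n * Y.card := by
      rw [← hc]; ring
    zify at h3 ⊢
    push_cast at h
    linarith

theorem exists_disjoint_bases (X₁ : Finset V) (b j : ℕ)
    (h : ∀ Y ⊆ X₁, (X₁ \ Y).card ≤ j * b → b ≤ rk Y) :
    ∃ B : ℕ → Finset V, (∀ i < j, B i ⊆ X₁ ∧ (B i).card = b ∧
      LinearIndepOn (ZMod 2) id (B i : Set V)) ∧
      (∀ i < j, ∀ i' < j, i ≠ i' → Disjoint (B i) (B i')) := by
  induction j with
  | zero => exact ⟨fun _ => ∅, by simp, by simp⟩
  | succ j ih =>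
    obtain ⟨B, hB, hd⟩ := ih (fun Y hY hc => h Y hY (hc.trans (Nat.mul_le_mul_right _ (by omega))))
    set U := (range j).biUnion B with hU
    have hUc : U.card ≤ j * b := by
      calc U.card ≤ ∑ i ∈ range j, (B i).card := Finset.card_biUnion_le
        _ = ∑ i ∈ range j, b := Finset.sum_congr rfl fun i hi => (hB i (mem_range.1 hi)).2.1
        _ = j * b := by simp
    have hr : b ≤ rk (X₁ \ U) := by
      apply h _ sdiff_subset
      calc (X₁ \ (X₁ \ U)).card ≤ U.card := by
            apply Finset.card_le_card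
            intro x hx
            rw [mem_sdiff, mem_sdiff] at hx
            by_contra hxU
            exact hx.2 ⟨hx.1, hxU⟩
        _ ≤ j * b := hUc
        _ ≤ (j + 1) * b := Nat.mul_le_mul_right _ (by omega)
    obtain ⟨B', hB', hc', hi'⟩ := exists_indep_subset (X₁ \ U) b hr
    have hdis : ∀ i < j, Disjoint (B i) B' := by
      intro i hi
      rw [Finset.disjoint_left]
      intro x hx hx'
      have := hB' hx'
      rw [mem_sdiff] at this
      exact this.2 (mem_biUnion.2 ⟨i, mem_range.2 hi, hx⟩)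
    refine ⟨fun i => if i = j then B' else B i, ?_, ?_⟩
    · intro i hi
      by_cases hij : i = j
      · simp only [hij, if_true]
        exact ⟨hB'.trans sdiff_subset, hc', hi'⟩
      · simp only [hij, if_false]
        exact hB i (by omega)
    · intro i hi i' hi2 hne
      by_cases hij : i = j
      · have : i' ≠ j := fun h' => hne (hij.trans h'.symm)
        simp only [hij, this, if_true, if_false]
        exact (hdis i' (by omega)).symm
      · by_cases hij' : i' = j
        · simp only [hij, hij', if_true, if_false]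
          exact hdis i (by omega)
        · simp only [hij, hij', if_false]
          exact hd i (by omega) i' (by omega) hne

theorem exists_extremal (X₁ Z₀ : Finset V) (hZ₀ : Z₀ ⊆ X₁) (c : ℕ) :
    ∃ Z, Z₀ ⊆ Z ∧ Z ⊆ X₁ ∧
      (∀ Y ⊆ X₁, ((Z ∪ Y) + (Z ∪ Y)).card ≤ (Z + Z).card + c * Y.card) ∧
      c * Z.card ≤ (Z + Z).card + c * Z₀.card := by
  obtain ⟨Z, hZ, hmax⟩ := Finset.exists_max_image (X₁.powerset.filter (fun Z => Z₀ ⊆ Z))
    (fun Z => (((Z + Z).card : ℕ) : ℤ) - ((c * Z.card : ℕ) : ℤ))
    ⟨Z₀, mem_filter.2 ⟨mem_powerset.2 hZ₀, Finset.Subset.refl _⟩⟩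
  rw [mem_filter, mem_powerset] at hZ
  refine ⟨Z, hZ.2, hZ.1, ?_, ?_⟩
  · intro Y hY
    have h := hmax (Z ∪ Y) (mem_filter.2 ⟨mem_powerset.2 (union_subset hZ.1 hY),
      hZ.2.trans subset_union_left⟩)
    have h2 : c * (Z ∪ Y).card ≤ c * Z.card + c * Y.card := by
      rw [← Nat.mul_add]; exact Nat.mul_le_mul_left _ (card_union_le Z Y)
    zify at h2 ⊢
    push_cast at h
    linarith
  · have h := hmax Z₀ (mem_filter.2 ⟨mem_powerset.2 hZ₀, Finset.Subset.refl _⟩)
    zify
    push_cast at h
    have : (0 : ℤ) ≤ (((Z₀ + Z₀).card : ℕ) : ℤ) := by positivity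
    linarith

/-- few exceptions: new sums with a single element -/
theorem card_exceptions_le (X₁ Z : Finset V) (c : ℕ)
    (h : ∀ Y ⊆ X₁, ((Z ∪ Y) + (Z ∪ Y)).card ≤ (Z + Z).card + c * Y.card) (x : V) (hx : x ∈ X₁)
    (W : Finset V) (hW : W ⊆ Z) :
    (W.filter (fun z => x + z ∉ Z + Z)).card ≤ c := by
  have h1 := h {x} (singleton_subset_iff.2 hx)
  rw [card_singleton, mul_one] at h1
  set E := W.filter (fun z => x + z ∉ Z + Z) with hE
  have h2 : (Z + Z) ∪ E.image (fun z => x + z) ⊆ (Z ∪ {x}) + (Z ∪ {x}) := by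
    intro y hy
    rcases mem_union.1 hy with hy | hy
    · exact Finset.add_subset_add subset_union_left subset_union_left hy
    · obtain ⟨z, hz, rfl⟩ := mem_image.1 hy
      exact Finset.add_mem_add (mem_union_right _ (mem_singleton_self x))
        (mem_union_left _ (hW (mem_filter.1 hz).1))
  have h3 : Disjoint (Z + Z) (E.image (fun z => x + z)) := by
    rw [Finset.disjoint_left]
    intro y hy hy'
    obtain ⟨z, hz, rfl⟩ := mem_image.1 hy'
    exact (mem_filter.1 hz).2 hy
  have h4 := Finset.card_le_card h2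
  rw [card_union_of_disjoint h3, card_image_of_injective _ (add_right_injective x)] at h4
  omega

end Pool.Agent.Helper64.Cayley
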