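import Mathlib
import Pool.Agent.Helper64.Struct1

/-!
# Structure of sets with few sums, part 2: the rank bound
-/

set_option autoImplicit false
set_option linter.unusedSectionVars false

open Finset
open scoped Pointwise

namespace Pool.Agent.Helper64.Cayley

/-! ### Arithmetic -/

theorem num_a {r q m1 E : ℕ} (hE : 254 * (r * m1) ≤ 256 * E) (hm1 : 63 * q ≤ 64 * m1) :
    31 * (r * q) ≤ 32 * E := by
  have h : r * (63 * q) ≤ r * (64 * m1) := Nat.mul_le_mul_left _ hm1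
  have h' : 63 * (r * q) ≤ 64 * (r * m1) := by linarith
  omega

theorem num_b {r n M : ℕ} (hr : 1 ≤ r) (hrn : r ≤ n)
    (hM : 63 * M ≤ 64 * (r * n + n + 2 ^ 14 * (r * r))) : M ≤ 2 ^ 15 * (r * n) := by
  have h1 : n ≤ r * n := Nat.le_mul_of_pos_left n hr
  have h2 : r * r ≤ r * n := Nat.mul_le_mul_left _ hrn
  omega

theorem num_c {r n M k w q : ℕ} (hkw : k * w = q) (hn : n = k + w) (hk : k ≤ w)
    (hM : M ≤ 2 ^ 15 * (r * n)) : k * M ≤ 2 ^ 16 * (r * q) := by
  have h1 : n ≤ 2 * w := by omega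
  have h2 : k * M ≤ k * (2 ^ 15 * (r * (2 * w))) :=
    Nat.mul_le_mul_left _ (hM.trans (Nat.mul_le_mul_left _ (Nat.mul_le_mul_left _ h1)))
  calc k * M ≤ k * (2 ^ 15 * (r * (2 * w))) := h2
    _ = 2 ^ 16 * (r * (k * w)) := by ring
    _ = _ := by rw [hkw]

theorem num_case1 {r q m1 E M k s P : ℕ} (hq : 0 < q)
    (ha : 31 * (r * q) ≤ 32 * E) (hm1 : m1 ≤ q) (hc : k * M ≤ 2 ^ 16 * (r * q))
    (hs : 2 ^ 18 ≤ s) (hsk : s ≤ k)
    (hiso : E * s ≤ (P * m1 + M) * (2 * k) + M * s) : r ≤ P * k := by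
  have h1 : 32 * (E * s) ≤ 32 * ((P * q + M) * (2 * k) + M * k) := by
    apply Nat.mul_le_mul_left
    calc E * s ≤ (P * m1 + M) * (2 * k) + M * s := hiso
      _ ≤ (P * q + M) * (2 * k) + M * k := by
        gcongr
  have h2 : 31 * (r * q) * s ≤ 32 * E * s := Nat.mul_le_mul_right _ ha
  have h3 : 32 * ((P * q + M) * (2 * k) + M * k) = 64 * (P * k * q) + 96 * (k * M) := by ring
  have h4 : 31 * (r * q) * 2 ^ 18 ≤ 31 * (r * q) * s := Nat.mul_le_mul_left _ hs
  have h5 : 28 * 2 ^ 16 * (r * q) ≤ 64 * (P * k * q) := by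
    have : 32 * E * s = 32 * (E * s) := by ring
    omega
  have h6 : r * q ≤ P * k * q := by omega
  exact Nat.le_of_mul_le_mul_right h6 hq

theorem num_case2 {r q n M k w P : ℕ} (hk31 : 2 ^ 31 ≤ k) (hkr : k ≤ r) (hkw : k * w = q)
    (hn : n = k + w) (hM : 63 * M ≤ 64 * (r * n + n + 2 ^ 14 * (r * r))) (hP : 1 ≤ P)
    (hr : r ≤ P * k) (hbig : 2 ^ 24 * P * (k * k) ≤ q) : 32 * (k * M) ≤ 33 * (r * q) := by
  have hk0 : 0 < k := by omega
  have h1 : 2 ^ 24 * P * k ≤ w := by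
    have : k * (2 ^ 24 * P * k) ≤ k * w := by
      calc k * (2 ^ 24 * P * k) = 2 ^ 24 * P * (k * k) := by ring
        _ ≤ q := hbig
        _ = k * w := hkw.symm
    exact Nat.le_of_mul_le_mul_left this hk0
  have h2 : 2 ^ 10 * (2 ^ 14 * (r * r)) ≤ r * n := by
    calc 2 ^ 10 * (2 ^ 14 * (r * r)) = r * (2 ^ 24 * r) := by ring
      _ ≤ r * (2 ^ 24 * (P * k)) := by gcongr
      _ = r * (2 ^ 24 * P * k) := by ring
      _ ≤ r * n := Nat.mul_le_mul_left _ (by omega)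
  have h3 : 1024 * n ≤ r * n := Nat.mul_le_mul_right _ (by omega)
  have h4 : 1024 * (63 * M) ≤ 64 * (1026 * (r * n)) := by omega
  have h5 : 1024 * (k * n) ≤ 1025 * q := by
    have h51 : k * n = k * k + q := by rw [hn, Nat.mul_add, hkw]
    have h52 : 1024 * (k * k) ≤ q := by
      calc 1024 * (k * k) ≤ 2 ^ 24 * P * (k * k) := by
            apply Nat.mul_le_mul_right
            calc 1024 ≤ 2 ^ 24 * 1 := by norm_num
              _ ≤ 2 ^ 24 * P := Nat.mul_le_mul_left _ hP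
        _ ≤ q := hbig
    omega
  have h6 : k * (1024 * (63 * M)) ≤ k * (64 * (1026 * (r * n))) := Nat.mul_le_mul_left _ h4
  have h7 : r * (1024 * (k * n)) ≤ r * (1025 * q) := Nat.mul_le_mul_left _ h5
  have h8 : k * (1024 * (63 * M)) = 1024 * 63 * (k * M) := by ring
  have h9 : k * (64 * (1026 * (r * n))) = 64 * 1026 * (r * (k * n)) := by ring
  have h10 : r * (1024 * (k * n)) = 1024 * (r * (k * n)) := by ring
  have h11 : r * (1025 * q) = 1025 * (r * q) := by ring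
  rw [h8, h9] at h6
  rw [h10, h11] at h7
  omega

theorem num_case3 {r q m1 E M k K : ℕ} (hk : 0 < k) (hq : 0 < q)
    (ha : 31 * (r * q) ≤ 32 * E) (hm1 : m1 ≤ q) (hM : 32 * (k * M) ≤ 33 * (r * q))
    (hK : 64 * K ≤ 65 * k) (hiso : 2 * E ≤ (m1 + M) * K) : 4 * r < 5 * k := by
  by_contra hcon
  push Not at hcon
  have h1 : 32 * k * (2 * E) ≤ 32 * k * ((m1 + M) * K) := Nat.mul_le_mul_left _ hiso
  have h2 : 32 * k * ((m1 + M) * K) ≤ (32 * (k * q) + 33 * (r * q)) * K := by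
    calc 32 * k * ((m1 + M) * K) = (32 * (k * m1) + 32 * (k * M)) * K := by ring
      _ ≤ (32 * (k * q) + 33 * (r * q)) * K := by gcongr
  have h3 : 2 * k * (31 * (r * q)) ≤ 2 * k * (32 * E) := Nat.mul_le_mul_left _ ha
  have h4 : 64 * (2 * k * (31 * (r * q))) ≤ (32 * (k * q) + 33 * (r * q)) * (65 * k) := by
    calc 64 * (2 * k * (31 * (r * q))) ≤ 64 * (32 * k * (2 * E)) := by
          apply Nat.mul_le_mul_left
          calc 2 * k * (31 * (r * q)) ≤ 2 * k * (32 * E) := h3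
            _ = 32 * k * (2 * E) := by ring
      _ ≤ 64 * ((32 * (k * q) + 33 * (r * q)) * K) := Nat.mul_le_mul_left _ (h1.trans h2)
      _ = (32 * (k * q) + 33 * (r * q)) * (64 * K) := by ring
      _ ≤ _ := Nat.mul_le_mul_left _ hK
  have h5 : (k * q) * (3968 * r) ≤ (k * q) * (2080 * k + 2145 * r) := by
    calc (k * q) * (3968 * r) = 64 * (2 * k * (31 * (r * q))) := by ring
      _ ≤ _ := h4
      _ = (k * q) * (2080 * k + 2145 * r) := by ring
  have h6 := Nat.le_of_mul_le_mul_left h5 (Nat.mul_pos hk hq)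
  omega

theorem num_pow {r n M k w q m1 : ℕ} (hkw : k * w = q) (hn : n = k + w) (hk : k ≤ w)
    (hk31 : 2 ^ 31 ≤ k) (hrn : r ≤ n) (hM : M ≤ 2 ^ 15 * (r * n)) (hm1 : m1 ≤ q) :
    m1 + M ≤ q * q := by
  have h1 : n ≤ 2 * w := by omega
  have h2 : 2 ^ 31 * w ≤ q := by rw [← hkw]; exact Nat.mul_le_mul_right _ hk31
  have h3 : M ≤ 2 ^ 15 * ((2 * w) * (2 * w)) :=
    hM.trans (Nat.mul_le_mul_left _ (Nat.mul_le_mul (hrn.trans h1) h1))
  have h4 : (2 ^ 31 * w) * (2 ^ 31 * w) ≤ q * q := Nat.mul_le_mul h2 h2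
  have h5 : 2 * M ≤ q * q := by
    calc 2 * M ≤ 2 * (2 ^ 15 * ((2 * w) * (2 * w))) := Nat.mul_le_mul_left _ h3
      _ = 2 ^ 18 * (w * w) := by ring
      _ ≤ 2 ^ 62 * (w * w) := Nat.mul_le_mul_right _ (by norm_num)
      _ = (2 ^ 31 * w) * (2 ^ 31 * w) := by ring
      _ ≤ q * q := h4
  have h6 : 2 ≤ q := by
    have : 2 ^ 31 * 1 ≤ 2 ^ 31 * w := Nat.mul_le_mul_left _ (by omega)
    omega
  have h7 : 2 * m1 ≤ q * q := by
    calc 2 * m1 ≤ 2 * q := Nat.mul_le_mul_left _ hm1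
      _ ≤ q * q := Nat.mul_le_mul_right _ h6
  omega

/-! ### The rank bound -/

variable {V : Type*} [AddCommGroup V] [Module (ZMod 2) V] [Fintype V] [DecidableEq V]

/-- A set is light if all its subsets `Z` have few sums compared with their rank and size. -/
def Light (n : ℕ) (X : Finset V) : Prop :=
  ∀ Z ⊆ X, (Z + Z).card ≤ rk Z * (n + Z.card) + n

theorem exists_good_basis (X₁ T : Finset V) (B : ℕ → Finset V) (j b c : ℕ) (hj : 0 < j)
    (hcard : ∀ i < j, (B i).card = b)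
    (hd : ∀ i < j, ∀ i' < j, i ≠ i' → Disjoint (B i) (B i'))
    (hexc : ∀ x ∈ X₁, (((range j).biUnion B).filter (fun z => x + z ∉ T)).card ≤ c) :
    ∃ i < j, j * (b * X₁.card) ≤ j * edges (B i) X₁ T + c * X₁.card := by
  set bad : ℕ → ℕ := fun i => ∑ z ∈ B i, (X₁.filter (fun x => x + z ∉ T)).card with hbad
  have hsum : ∑ i ∈ range j, bad i ≤ c * X₁.card := by
    have h1 : ∑ i ∈ range j, bad i =
        ∑ z ∈ (range j).biUnion B, (X₁.filter (fun x => x + z ∉ T)).card := by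
      rw [Finset.sum_biUnion]
      intro i hi i' hi' hne
      exact hd i (by simpa using hi) i' (by simpa using hi') hne
    rw [h1]
    have h2 : ∑ z ∈ (range j).biUnion B, (X₁.filter (fun x => x + z ∉ T)).card =
        ∑ x ∈ X₁, (((range j).biUnion B).filter (fun z => x + z ∉ T)).card := by
      simp only [Finset.card_filter]
      exact Finset.sum_comm
    rw [h2]
    calc ∑ x ∈ X₁, (((range j).biUnion B).filter (fun z => x + z ∉ T)).card
        ≤ ∑ x ∈ X₁, c := Finset.sum_le_sum hexc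
      _ = c * X₁.card := by rw [Finset.sum_const, smul_eq_mul, mul_comm]
  have h3 : ∑ i ∈ range j, j * bad i ≤ ∑ i ∈ range j, c * X₁.card := by
    rw [← Finset.mul_sum, Finset.sum_const, card_range, smul_eq_mul]
    exact Nat.mul_le_mul_left _ hsum
  obtain ⟨i, hi, hle⟩ := Finset.exists_le_of_sum_le ⟨0, mem_range.2 hj⟩ h3
  rw [mem_range] at hi
  refine ⟨i, hi, ?_⟩
  have h4 : edges (B i) X₁ T + bad i = b * X₁.card := by
    unfold edges
    simp only [hbad]
    rw [← Finset.sum_add_distrib, ← hcard i hi]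
    rw [← smul_eq_mul, ← Finset.sum_const]
    exact Finset.sum_congr rfl fun z _ => card_filter_add_card_filter_not _
  calc j * (b * X₁.card) = j * edges (B i) X₁ T + j * bad i := by rw [← h4]; ring
    _ ≤ _ := by omega

theorem rank_bound (X : Finset V) (n k w q s : ℕ) (hfr : Module.finrank (ZMod 2) V ≤ n)
    (hq : q = 2 ^ k) (hkw : k * w = q) (hn : n = k + w) (hk31 : 2 ^ 31 ≤ k)
    (hs : 2 ^ 18 ≤ s) (hsk : 64 * (s + 2) ≤ k) (hbig : 2 ^ 24 * 2 ^ s * (k * k) ≤ q)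
    (hXq : X.card ≤ q) (hqX : 127 * q ≤ 128 * X.card) (hlight : Light n X) :
    ∃ X₁ Z : Finset V, X₁ ⊆ X ∧ Z ⊆ X₁ ∧ 63 * q ≤ 64 * X₁.card ∧ 4 * rk X₁ < 5 * k ∧
      128 * (Z + Z).card ≤ 165 * q ∧
      ∀ Y ⊆ X₁, ((Z ∪ Y) + (Z ∪ Y)).card ≤ (Z + Z).card + 64 * rk X₁ * Y.card := by
  have hk0 : 0 < k := by omega
  have hq0 : 0 < q := by rw [hq]; positivity
  have hkw' : k ≤ w := by
    have h1 : k * k ≤ k * w := by
      calc k * k ≤ 2 ^ 24 * 2 ^ s * (k * k) := Nat.le_mul_of_pos_left _ (by positivity)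
        _ ≤ q := hbig
        _ = k * w := hkw.symm
    exact Nat.le_of_mul_le_mul_left h1 hk0
  have hn0 : 0 < n := by omega
  have hn2 : n ≤ 2 * w := by omega
  have hwq : 2 ^ 31 * w ≤ q := by rw [← hkw]; exact Nat.mul_le_mul_right _ hk31
  obtain ⟨X₁, hX₁, hcard, hpen⟩ := exists_penalized X 128 n hn0 ((rk_le_finrank X).trans hfr)
  have hm1 : 63 * q ≤ 64 * X₁.card := by omega
  have hm1q : X₁.card ≤ q := (Finset.card_le_card hX₁).trans hXq
  set r := rk X₁ with hr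
  have hrn : r ≤ n := (rk_le_finrank X₁).trans hfr
  have hkr : k ≤ r := by
    by_contra hlt
    push Not at hlt
    have h1 : X₁.card ≤ 2 ^ r := card_le_two_pow_rk X₁
    have h2 : 2 * 2 ^ r ≤ q := by
      rw [hq, ← pow_succ']; exact Nat.pow_le_pow_right (by norm_num) hlt
    omega
  set b := r - r / 256 with hb
  have hbr : b ≤ r := by omega
  have h256b : 255 * r ≤ 256 * b := by omega
  -- robust rank
  have hrob : ∀ Y ⊆ X₁, (X₁ \ Y).card ≤ 2 ^ 14 * b → b ≤ rk Y := by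
    intro Y hY hc
    by_contra hlt
    push Not at hlt
    have h1 := hpen Y hY
    have h2 : rk Y + (r / 256 + 1) ≤ r := by omega
    have h3 : X.card * (rk Y + (r / 256 + 1)) ≤ X.card * rk Y + 128 * n * (X₁ \ Y).card :=
      (Nat.mul_le_mul_left _ h2).trans h1
    rw [Nat.mul_add] at h3
    have h4 : X.card * (r / 256 + 1) ≤ 128 * n * (2 ^ 14 * r) := by
      calc X.card * (r / 256 + 1) ≤ 128 * n * (X₁ \ Y).card := by omega
        _ ≤ 128 * n * (2 ^ 14 * r) := by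
          apply Nat.mul_le_mul_left
          exact hc.trans (Nat.mul_le_mul_left _ hbr)
    have h5 : r ≤ 256 * (r / 256 + 1) := by omega
    have h6 : X.card * r ≤ 2 ^ 29 * n * r := by
      calc X.card * r ≤ X.card * (256 * (r / 256 + 1)) := Nat.mul_le_mul_left _ h5
        _ = 256 * (X.card * (r / 256 + 1)) := by ring
        _ ≤ 256 * (128 * n * (2 ^ 14 * r)) := Nat.mul_le_mul_left _ h4
        _ = 2 ^ 29 * n * r := by ring
    have h7 : X.card ≤ 2 ^ 29 * n := Nat.le_of_mul_le_mul_right h6 (by omega)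
    omega
  obtain ⟨j, hj⟩ : ∃ j : ℕ, j = 2 ^ 14 := ⟨_, rfl⟩
  rw [← hj] at hrob
  obtain ⟨B, hB, hd⟩ := exists_disjoint_bases X₁ b j hrob
  set Z₀ := (range j).biUnion B with hZ₀
  have hZ₀X : Z₀ ⊆ X₁ := by
    intro x hx
    obtain ⟨i, hi, hx⟩ := mem_biUnion.1 hx
    exact (hB i (mem_range.1 hi)).1 hx
  have hZ₀c : Z₀.card ≤ 2 ^ 14 * r := by
    calc Z₀.card ≤ ∑ i ∈ range j, (B i).card := Finset.card_biUnion_le
      _ = ∑ i ∈ range j, b :=
        Finset.sum_congr rfl fun i hi => (hB i (mem_range.1 hi)).2.1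
      _ = j * b := by rw [Finset.sum_const, card_range, smul_eq_mul]
      _ ≤ j * r := Nat.mul_le_mul_left _ hbr
      _ = _ := by rw [hj]
  obtain ⟨Z, hZ₀Z, hZX, hmax, hZc⟩ := exists_extremal X₁ Z₀ hZ₀X (64 * r)
  set M := (Z + Z).card with hMdef
  -- bound for M
  have hM : 63 * M ≤ 64 * (r * n + n + 2 ^ 14 * (r * r)) := by
    have h1 := hlight Z (hZX.trans hX₁)
    have h2 : rk Z ≤ r := rk_mono hZX
    have h3 : M ≤ r * (n + Z.card) + n :=
      h1.trans (Nat.add_le_add_right (Nat.mul_le_mul_right _ h2) _)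
    have h4 : 64 * r * Z₀.card ≤ 64 * r * (2 ^ 14 * r) := Nat.mul_le_mul_left _ hZ₀c
    have e1 : r * (n + Z.card) = r * n + r * Z.card := Nat.mul_add _ _ _
    have e2 : 64 * r * Z.card = 64 * (r * Z.card) := by ring
    have e3 : 64 * r * (2 ^ 14 * r) = 64 * (2 ^ 14 * (r * r)) := by ring
    rw [e1] at h3
    rw [e2] at hZc
    rw [e3] at h4
    omega
  -- good basis
  obtain ⟨i, hi, hE⟩ := exists_good_basis X₁ (Z + Z) B j b (64 * r) (by rw [hj]; norm_num)
    (fun i hi => (hB i hi).2.1) hd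
    (fun x hx => card_exceptions_le X₁ Z (64 * r) hmax x hx _ hZ₀Z)
  rw [hj] at hE
  set E := edges (B i) X₁ (Z + Z) with hEdef
  have hE2 : 254 * (r * X₁.card) ≤ 256 * E := by
    have h1 : 255 * r * X₁.card ≤ 256 * b * X₁.card := Nat.mul_le_mul_right _ h256b
    have e1 : 255 * r * X₁.card = 255 * (r * X₁.card) := by ring
    have e2 : 256 * b * X₁.card = 256 * (b * X₁.card) := by ring
    have e3 : 64 * r * X₁.card = 64 * (r * X₁.card) := by ring
    rw [e1, e2] at h1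
    rw [e3] at hE
    omega
  have ha := num_a hE2 hm1
  have hbM := num_b (by omega) hrn hM
  have hc := num_c hkw hn hkw' hbM
  have hind : LinearIndepOn (ZMod 2) id (B i : Set V) := (hB i hi).2.2
  -- case 1
  have hrP : r ≤ 2 ^ s * k := by
    have hpow : X₁.card + M ≤ 2 ^ (2 * k) := by
      rw [two_mul, pow_add, ← hq]
      exact num_pow hkw hn hkw' hk31 hrn hbM hm1q
    have hiso := iso_two (B i) X₁ (Z + Z) hind (2 * k) s hpow
    exact num_case1 hq0 ha hm1q hc hs (by omega) hiso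
  have hc2 := num_case2 hk31 hkr hkw hn hM (Nat.one_le_two_pow) hrP hbig
  have hr54 : 4 * r < 5 * k := by
    have hpow : X₁.card + M ≤ 2 ^ (k + s + 2) := by
      have h1 : 32 * (k * M) ≤ 33 * (2 ^ s * k * q) :=
        hc2.trans (Nat.mul_le_mul_left _ (Nat.mul_le_mul_right _ hrP))
      have h2 : k * (32 * M) ≤ k * (33 * (2 ^ s * q)) := by
        calc k * (32 * M) = 32 * (k * M) := by ring
          _ ≤ _ := h1
          _ = k * (33 * (2 ^ s * q)) := by ring
      have h3 := Nat.le_of_mul_le_mul_left h2 hk0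
      have h4 : 2 ^ (k + s + 2) = 4 * (2 ^ s * q) := by rw [hq]; ring
      have h5 : q ≤ 2 ^ s * q := Nat.le_mul_of_pos_left _ (by positivity)
      omega
    have hiso := iso_one (B i) X₁ (Z + Z) hind (k + s + 2) hpow
    exact num_case3 hk0 hq0 ha hm1q hc2 (by omega) hiso
  refine ⟨X₁, Z, hX₁, hZX, hm1, hr54, ?_, hmax⟩
  have h1 : 4 * (32 * (k * M)) ≤ 4 * (33 * (r * q)) := Nat.mul_le_mul_left _ hc2
  have h2 : (4 * r) * q ≤ (5 * k) * q := Nat.mul_le_mul_right _ hr54.le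
  have h3 : k * (128 * M) ≤ k * (165 * q) := by
    calc k * (128 * M) = 4 * (32 * (k * M)) := by ring
      _ ≤ 4 * (33 * (r * q)) := h1
      _ = 33 * ((4 * r) * q) := by ring
      _ ≤ 33 * ((5 * k) * q) := Nat.mul_le_mul_left _ h2
      _ = k * (165 * q) := by ring
  exact Nat.le_of_mul_le_mul_left h3 hk0

end Pool.Agent.Helper64.Cayley
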