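import Mathlib
import Pool.Agent.Helper64.Struct2

/-!
# Structure of sets with few sums, part 3: almost all sums are popular
-/

set_option autoImplicit false
set_option linter.unusedSectionVars false

open Finset
open scoped Pointwise

namespace Pool.Agent.Helper64.Cayley

variable {V : Type*} [AddCommGroup V] [Module (ZMod 2) V] [Fintype V] [DecidableEq V]

theorem add_self_zero (x : V) : x + x = 0 := by
  have h := add_smul (1 : ZMod 2) 1 x
  have h2 : (1 : ZMod 2) + 1 = 0 := by decide
  rw [h2, zero_smul, one_smul] at h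
  exact h.symm

theorem add_add_cancel_left' (x y : V) : x + (x + y) = y := by
  rw [← add_assoc, add_self_zero, zero_add]

/-- One step of the greedy choice. -/
theorem pairs_step (X₁ T D Y' : Finset V) (h l : ℕ) (hl : l ≤ h) (hD : D.card = h)
    (hm : 0 < X₁.card) (hY'c : Y'.card ≤ l)
    (hDb : ∀ d ∈ D, X₁.card ≤ 64 * (X₁.filter (fun y => d + y ∉ T)).card)
    (hh : 128 * (h * h) ≤ X₁.card) :
    ∃ y ∈ X₁, h ≤ 128 * (D.filter (fun d => d + y ∉ T ∧ d + y ∉ D + Y')).card := by
  by_contra hcon
  push Not at hcon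
  -- sum over y of the three counts
  have s1 : ∑ y ∈ X₁, (D.filter (fun d => d + y ∉ T)).card =
      ∑ d ∈ D, (X₁.filter (fun y => d + y ∉ T)).card := by
    simp only [Finset.card_filter]; exact Finset.sum_comm
  have s2 : ∑ y ∈ X₁, (D.filter (fun d => d + y ∈ D + Y')).card =
      ∑ d ∈ D, (X₁.filter (fun y => d + y ∈ D + Y')).card := by
    simp only [Finset.card_filter]; exact Finset.sum_comm
  have s3 : h * X₁.card ≤ 64 * ∑ y ∈ X₁, (D.filter (fun d => d + y ∉ T)).card := by
    rw [s1, Finset.mul_sum]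
    calc h * X₁.card = ∑ d ∈ D, X₁.card := by rw [Finset.sum_const, hD, smul_eq_mul]
      _ ≤ _ := Finset.sum_le_sum hDb
  have s4 : ∑ y ∈ X₁, (D.filter (fun d => d + y ∈ D + Y')).card ≤ h * (h * h) := by
    rw [s2]
    calc ∑ d ∈ D, (X₁.filter (fun y => d + y ∈ D + Y')).card ≤ ∑ d ∈ D, h * h := by
          apply Finset.sum_le_sum
          intro d _
          calc (X₁.filter (fun y => d + y ∈ D + Y')).card ≤ (D + Y').card := by
                apply Finset.card_le_card_of_injOn (fun y => d + y)
                · intro y hy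
                  exact (mem_filter.1 hy).2
                · intro y _ y' _ e
                  exact add_left_cancel e
            _ ≤ D.card * Y'.card := Finset.card_add_le
            _ ≤ h * h := Nat.mul_le_mul (le_of_eq hD) (hY'c.trans hl)
      _ = h * (h * h) := by rw [Finset.sum_const, hD, smul_eq_mul]
  have s5 : ∑ y ∈ X₁, (D.filter (fun d => d + y ∉ T)).card ≤
      ∑ y ∈ X₁, (D.filter (fun d => d + y ∉ T ∧ d + y ∉ D + Y')).card +
      ∑ y ∈ X₁, (D.filter (fun d => d + y ∈ D + Y')).card := by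
    rw [← Finset.sum_add_distrib]
    apply Finset.sum_le_sum
    intro y _
    calc (D.filter (fun d => d + y ∉ T)).card
        ≤ ((D.filter (fun d => d + y ∉ T ∧ d + y ∉ D + Y')) ∪
            (D.filter (fun d => d + y ∈ D + Y'))).card := by
          apply Finset.card_le_card
          intro d hd
          rw [mem_filter] at hd
          rw [mem_union, mem_filter, mem_filter]
          by_cases hd' : d + y ∈ D + Y'
          · exact Or.inr ⟨hd.1, hd'⟩
          · exact Or.inl ⟨hd.1, hd.2, hd'⟩
      _ ≤ _ := card_union_le _ _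
  have s6 : 128 * ∑ y ∈ X₁, (D.filter (fun d => d + y ∉ T ∧ d + y ∉ D + Y')).card <
      h * X₁.card := by
    rw [Finset.mul_sum]
    calc ∑ y ∈ X₁, 128 * (D.filter (fun d => d + y ∉ T ∧ d + y ∉ D + Y')).card
        < ∑ y ∈ X₁, h := Finset.sum_lt_sum_of_nonempty (Finset.card_pos.1 hm) hcon
      _ = h * X₁.card := by rw [Finset.sum_const, smul_eq_mul, mul_comm]
  have s7 : 128 * (h * (h * h)) ≤ h * X₁.card := by
    calc 128 * (h * (h * h)) = h * (128 * (h * h)) := by ring
      _ ≤ _ := Nat.mul_le_mul_left _ hh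
  omega

theorem pairs_greedy (X₁ T D : Finset V) (h : ℕ) (hD : D.card = h)
    (hm : 0 < X₁.card)
    (hDb : ∀ d ∈ D, X₁.card ≤ 64 * (X₁.filter (fun y => d + y ∉ T)).card)
    (hh : 128 * (h * h) ≤ X₁.card) (l : ℕ) (hl : l ≤ h) :
    ∃ Y' ⊆ X₁, Y'.card ≤ l ∧ l * h ≤ 128 * ((D + Y') \ T).card := by
  induction l with
  | zero => exact ⟨∅, by simp, by simp, by simp⟩
  | succ l ih =>
    obtain ⟨Y', hY', hc, hle⟩ := ih (by omega)
    obtain ⟨y, hy, hyc⟩ := pairs_step X₁ T D Y' h l (by omega) hD hm hc hDb hh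
    refine ⟨insert y Y', insert_subset hy hY', (card_insert_le _ _).trans (by omega), ?_⟩
    set N := D.filter (fun d => d + y ∉ T ∧ d + y ∉ D + Y') with hN
    have h1 : ((D + Y') \ T) ∪ N.image (fun d => d + y) ⊆ (D + insert y Y') \ T := by
      intro z hz
      rcases mem_union.1 hz with hz | hz
      · rw [mem_sdiff] at hz ⊢
        exact ⟨Finset.add_subset_add_left (subset_insert _ _) hz.1, hz.2⟩
      · obtain ⟨d, hd, rfl⟩ := mem_image.1 hz
        rw [hN, mem_filter] at hd
        rw [mem_sdiff]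
        exact ⟨Finset.add_mem_add hd.1 (mem_insert_self _ _), hd.2.1⟩
    have h2 : Disjoint ((D + Y') \ T) (N.image (fun d => d + y)) := by
      rw [Finset.disjoint_left]
      intro z hz hz'
      obtain ⟨d, hd, rfl⟩ := mem_image.1 hz'
      rw [hN, mem_filter] at hd
      exact hd.2.2 (mem_sdiff.1 hz).1
    have h3 := Finset.card_le_card h1
    rw [card_union_of_disjoint h2, card_image_of_injective _ (add_left_injective y)] at h3
    have h4 : (l + 1) * h = l * h + h := by ring
    omega

/-- Few elements of `X₁` have many sums outside `T = Z + Z`. -/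
theorem few_bad (X₁ Z : Finset V) (c h : ℕ)
    (hmax : ∀ Y ⊆ X₁, ((Z ∪ Y) + (Z ∪ Y)).card ≤ (Z + Z).card + c * Y.card)
    (hm : 0 < X₁.card) (hh : 128 * (h * h) ≤ X₁.card) (hc : 256 * c < h) :
    (X₁.filter (fun x => X₁.card ≤ 64 * (X₁.filter (fun y => x + y ∉ Z + Z)).card)).card < h := by
  by_contra hcon
  push Not at hcon
  obtain ⟨D, hD, hDc⟩ := Finset.exists_subset_card_eq hcon
  have hDX : D ⊆ X₁ := hD.trans (filter_subset _ _)
  obtain ⟨Y', hY', hc', hle⟩ := pairs_greedy X₁ (Z + Z) D h hDc hm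
    (fun d hd => (mem_filter.1 (hD hd)).2) hh h le_rfl
  have h1 := hmax (D ∪ Y') (union_subset hDX hY')
  have h2 : (Z + Z) ∪ ((D + Y') \ (Z + Z)) ⊆ (Z ∪ (D ∪ Y')) + (Z ∪ (D ∪ Y')) := by
    intro z hz
    rcases mem_union.1 hz with hz | hz
    · exact Finset.add_subset_add subset_union_left subset_union_left hz
    · have := (mem_sdiff.1 hz).1
      exact Finset.add_subset_add (subset_union_left.trans subset_union_right)
        (subset_union_right.trans subset_union_right) this
  have h3 := Finset.card_le_card h2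
  rw [card_union_of_disjoint disjoint_sdiff] at h3
  have h4 : (D ∪ Y').card ≤ 2 * h := by
    have := card_union_le D Y'
    omega
  have h5 : c * (D ∪ Y').card ≤ c * (2 * h) := Nat.mul_le_mul_left _ h4
  have h6 : h * h ≤ 128 * (c * (2 * h)) := by omega
  have h7 : h * h ≤ (256 * c) * h := by
    calc h * h ≤ 128 * (c * (2 * h)) := h6
      _ = (256 * c) * h := by ring
  have h8 : h ≤ 256 * c := Nat.le_of_mul_le_mul_right h7 (by omega)
  omega

/-- A set all of whose sums are popular is half of a coset of a subgroup or more. -/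
theorem subgroup_of_popular (W : Finset V) (hne : W.Nonempty)
    (h : ∀ a ∈ W, ∀ b ∈ W, W.card < 2 * (W.filter (fun x => x + (a + b) ∈ W)).card) :
    ∃ H : Submodule (ZMod 2) V, (∀ x, x ∈ H ↔ x ∈ W + W) ∧ W.card ≤ (W + W).card ∧
      (W + W).card < 2 * W.card := by
  have hadd : ∀ s t, s ∈ W + W → t ∈ W + W → s + t ∈ W + W := by
    intro s t hs ht
    obtain ⟨a, ha, b, hb, rfl⟩ := mem_add.1 hs
    obtain ⟨c, hc, d, hd, rfl⟩ := mem_add.1 ht
    have h1 := h a ha b hb
    have h2 := h c hc d hd
    have h3 : ((W.filter (fun x => x + (a + b) ∈ W)) ∩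
        (W.filter (fun x => x + (c + d) ∈ W))).Nonempty := by
      rw [← Finset.card_pos]
      have h4 := card_union_add_card_inter (W.filter (fun x => x + (a + b) ∈ W))
        (W.filter (fun x => x + (c + d) ∈ W))
      have h5 : ((W.filter (fun x => x + (a + b) ∈ W)) ∪
        (W.filter (fun x => x + (c + d) ∈ W))).card ≤ W.card :=
        Finset.card_le_card (union_subset (filter_subset _ _) (filter_subset _ _))
      omega
    obtain ⟨x, hx⟩ := h3
    rw [mem_inter, mem_filter, mem_filter] at hx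
    rw [mem_add]
    refine ⟨_, hx.1.2, _, hx.2.2, ?_⟩
    calc x + (a + b) + (x + (c + d)) = (x + x) + ((a + b) + (c + d)) := by abel
      _ = _ := by rw [add_self_zero, zero_add]
  have hzero : (0 : V) ∈ W + W := by
    obtain ⟨a, ha⟩ := hne
    rw [← add_self_zero a]; exact Finset.add_mem_add ha ha
  refine ⟨{ carrier := {x | x ∈ W + W}
            add_mem' := fun {s t} hs ht => hadd s t hs ht
            zero_mem' := hzero
            smul_mem' := ?_ }, fun x => Iff.rfl, ?_, ?_⟩
  · intro c x hx
    have h01 : ∀ t : ZMod 2, t = 0 ∨ t = 1 := by decide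
    rcases h01 c with rfl | rfl
    · rw [zero_smul]; exact hzero
    · rw [one_smul]; exact hx
  · obtain ⟨a, ha⟩ := hne
    apply Finset.card_le_card_of_injOn (fun x => a + x)
    · intro x hx; exact Finset.add_mem_add ha hx
    · intro x _ y _ e; exact add_left_cancel e
  · have h1 : (W ×ˢ W).card = ∑ t ∈ W + W, ((W ×ˢ W).filter (fun p => p.1 + p.2 = t)).card := by
      apply Finset.card_eq_sum_card_fiberwise
      intro p hp
      rw [mem_coe, mem_product] at hp
      exact Finset.add_mem_add hp.1 hp.2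
    have h2 : ∀ t ∈ W + W, W.card < 2 * ((W ×ˢ W).filter (fun p => p.1 + p.2 = t)).card := by
      intro t ht
      obtain ⟨a, ha, b, hb, rfl⟩ := mem_add.1 ht
      have h3 : (W.filter (fun x => x + (a + b) ∈ W)).card ≤
          ((W ×ˢ W).filter (fun p => p.1 + p.2 = a + b)).card := by
        apply Finset.card_le_card_of_injOn (fun x => (x, x + (a + b)))
        · intro x hx
          have hx' := mem_filter.1 hx
          rw [mem_coe, mem_filter, mem_product]
          exact ⟨⟨hx'.1, hx'.2⟩, add_add_cancel_left' _ _⟩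
        · intro x _ y _ e
          exact (Prod.mk.inj e).1
      have := h a ha b hb
      omega
    rw [card_product] at h1
    have hWW : (W + W).Nonempty := ⟨0, hzero⟩
    have h3 : ∑ t ∈ W + W, W.card < ∑ t ∈ W + W,
        2 * ((W ×ˢ W).filter (fun p => p.1 + p.2 = t)).card :=
      Finset.sum_lt_sum_of_nonempty hWW h2
    rw [← Finset.mul_sum, ← h1, Finset.sum_const, smul_eq_mul] at h3
    have h4 : (W + W).card * W.card < (2 * W.card) * W.card := by
      calc (W + W).card * W.card < 2 * (W.card * W.card) := h3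
        _ = _ := by ring
    exact Nat.lt_of_mul_lt_mul_right h4

/-- popular sums within the good part -/
theorem popular_of_good (X₁ T Xb : Finset V) (h : ℕ) (hXb : Xb.card < h)
    (a b : V) (ha : 64 * (X₁.filter (fun y => a + y ∉ T)).card < X₁.card)
    (hb : 64 * (X₁.filter (fun y => b + y ∉ T)).card < X₁.card)
    (hT : 126 * T.card ≤ 165 * X₁.card) (hh : 128 * h ≤ X₁.card) :
    (X₁ \ Xb).card < 2 * ((X₁ \ Xb).filter (fun x => x + (a + b) ∈ X₁ \ Xb)).card := by
  set A := (X₁.filter (fun y => a + y ∈ T)).image (fun y => a + y) with hA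
  set B := (X₁.filter (fun y => b + y ∈ T)).image (fun y => b + y) with hB
  have cA : A.card = (X₁.filter (fun y => a + y ∈ T)).card :=
    card_image_of_injective _ (add_right_injective a)
  have cB : B.card = (X₁.filter (fun y => b + y ∈ T)).card :=
    card_image_of_injective _ (add_right_injective b)
  have fA : (X₁.filter (fun y => a + y ∈ T)).card + (X₁.filter (fun y => a + y ∉ T)).card =
      X₁.card := card_filter_add_card_filter_not _
  have fB : (X₁.filter (fun y => b + y ∈ T)).card + (X₁.filter (fun y => b + y ∉ T)).card =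
      X₁.card := card_filter_add_card_filter_not _
  have hAT : A ∪ B ⊆ T := by
    intro z hz
    rcases mem_union.1 hz with hz | hz
    · obtain ⟨y, hy, rfl⟩ := mem_image.1 hz; exact (mem_filter.1 hy).2
    · obtain ⟨y, hy, rfl⟩ := mem_image.1 hz; exact (mem_filter.1 hy).2
  have hAB := card_union_add_card_inter A B
  have hABT := Finset.card_le_card hAT
  have hR1 : (A ∩ B).card ≤ (X₁.filter (fun x => x + (a + b) ∈ X₁)).card := by
    apply Finset.card_le_card_of_injOn (fun z => a + z)
    · intro z hz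
      rw [mem_coe, mem_inter] at hz
      obtain ⟨y, hy, e1⟩ := mem_image.1 hz.1
      obtain ⟨y', hy', e2⟩ := mem_image.1 hz.2
      rw [mem_coe, mem_filter]
      have e3 : a + z = y := by rw [← e1, add_add_cancel_left']
      have e4 : y + (a + b) = y' := by
        calc y + (a + b) = (a + y) + b := by abel
          _ = z + b := by rw [e1]
          _ = (b + y') + b := by rw [e2]
          _ = (b + b) + y' := by abel
          _ = y' := by rw [add_self_zero, zero_add]
      show a + z ∈ X₁ ∧ a + z + (a + b) ∈ X₁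
      rw [e3, e4]
      exact ⟨(mem_filter.1 hy).1, (mem_filter.1 hy').1⟩
    · intro x _ y _ e; exact add_left_cancel e
  have hR2 : (X₁.filter (fun x => x + (a + b) ∈ X₁)).card ≤
      ((X₁ \ Xb).filter (fun x => x + (a + b) ∈ X₁ \ Xb)).card + 2 * Xb.card := by
    have hsub : X₁.filter (fun x => x + (a + b) ∈ X₁) ⊆
        ((X₁ \ Xb).filter (fun x => x + (a + b) ∈ X₁ \ Xb)) ∪
          (Xb ∪ Xb.image (fun x => x + (a + b))) := by
      intro x hx
      rw [mem_filter] at hx
      rw [mem_union, mem_union, mem_filter]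
      by_cases h1 : x ∈ Xb
      · exact Or.inr (Or.inl h1)
      by_cases h2 : x + (a + b) ∈ Xb
      · refine Or.inr (Or.inr (mem_image.2 ⟨x + (a + b), h2, ?_⟩))
        rw [add_assoc, add_self_zero, add_zero]
      · exact Or.inl ⟨mem_sdiff.2 ⟨hx.1, h1⟩, mem_sdiff.2 ⟨hx.2, h2⟩⟩
    have h1 := Finset.card_le_card hsub
    have h2 := card_union_le ((X₁ \ Xb).filter (fun x => x + (a + b) ∈ X₁ \ Xb))
      (Xb ∪ Xb.image (fun x => x + (a + b)))
    have h3 := card_union_le Xb (Xb.image (fun x => x + (a + b)))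
    have h4 : (Xb.image (fun x => x + (a + b))).card ≤ Xb.card := card_image_le
    omega
  have h5 : (X₁ \ Xb).card ≤ X₁.card := Finset.card_le_card sdiff_subset
  omega

/-- The structure theorem. -/
theorem structure_thm (X : Finset V) (n k w q s : ℕ) (hfr : Module.finrank (ZMod 2) V ≤ n)
    (hq : q = 2 ^ k) (hkw : k * w = q) (hn : n = k + w) (hk31 : 2 ^ 31 ≤ k)
    (hs : 2 ^ 18 ≤ s) (hsk : 64 * (s + 2) ≤ k) (hbig : 2 ^ 24 * 2 ^ s * (k * k) ≤ q)
    (hXq : X.card ≤ q) (hqX : 127 * q ≤ 128 * X.card) (hlight : Light n X) :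
    ∃ H : Submodule (ZMod 2) V, Module.finrank (ZMod 2) H = k ∧ ∀ x ∈ H, x ∈ X + X := by
  obtain ⟨X₁, Z, hX₁, hZ, hm1, hr, hT, hmax⟩ := rank_bound X n k w q s hfr hq hkw hn hk31 hs hsk
    hbig hXq hqX hlight
  set c := 64 * rk X₁ with hc
  set h := 2 ^ 15 * k with hh
  have hq0 : 0 < q := by rw [hq]; positivity
  have hm0 : 0 < X₁.card := by omega
  have hm1q : X₁.card ≤ q := (Finset.card_le_card hX₁).trans hXq
  have hbig2 : 2 ^ 60 * (k * k) ≤ q := by
    calc 2 ^ 60 * (k * k) ≤ 2 ^ 24 * 2 ^ s * (k * k) := by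
          apply Nat.mul_le_mul_right
          rw [← pow_add]
          exact Nat.pow_le_pow_right (by norm_num) (by omega)
      _ ≤ q := hbig
  have hhh : 128 * (h * h) ≤ X₁.card := by
    have : 128 * (h * h) = 2 ^ 37 * (k * k) := by rw [hh]; ring
    omega
  have hh1 : 128 * h ≤ X₁.card := by
    have h1 : h ≤ h * h := Nat.le_mul_self h
    omega
  have hch : 256 * c < h := by omega
  have hbad := few_bad X₁ Z c h hmax hm0 hhh hch
  set Xb := X₁.filter (fun x => X₁.card ≤ 64 * (X₁.filter (fun y => x + y ∉ Z + Z)).card)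
    with hXb
  set W := X₁ \ Xb with hW
  have hWc : X₁.card ≤ W.card + Xb.card := by
    have : W.card + Xb.card = (X₁ ∪ Xb).card := Finset.card_sdiff_add_card X₁ Xb
    have h2 := Finset.card_le_card (subset_union_left : X₁ ⊆ X₁ ∪ Xb)
    omega
  have hgood : ∀ x ∈ W, 64 * (X₁.filter (fun y => x + y ∉ Z + Z)).card < X₁.card := by
    intro x hx
    rw [hW, mem_sdiff, hXb, mem_filter] at hx
    by_contra hcon
    push Not at hcon
    exact hx.2 ⟨hx.1, hcon⟩
  have hTm : 126 * (Z + Z).card ≤ 165 * X₁.card := by omega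
  obtain ⟨H, hH, hH1, hH2⟩ := subgroup_of_popular W (by
      rw [← Finset.card_pos]; omega) (fun a ha b hb =>
      popular_of_good X₁ (Z + Z) Xb h hbad a b (hgood a ha) (hgood b hb) hTm hh1)
  refine ⟨H, ?_, ?_⟩
  · have hcard : (W + W).card = 2 ^ Module.finrank (ZMod 2) H := by
      have : Fintype H := Fintype.ofFinite H
      have h1 : Fintype.card H = 2 ^ Module.finrank (ZMod 2) H := by
        rw [Module.card_eq_pow_finrank (K := ZMod 2), ZMod.card]
      rw [← h1, ← Fintype.card_coe]
      exact Fintype.card_congr ⟨fun x => ⟨x.1, (hH x.1).2 x.2⟩, fun x => ⟨x.1, (hH x.1).1 x.2⟩,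
        fun _ => rfl, fun _ => rfl⟩
    have hWq : W.card ≤ q := (Finset.card_le_card sdiff_subset).trans hm1q
    have hWl : q < 2 * W.card := by omega
    have h3 : 2 ^ k < 2 ^ (Module.finrank (ZMod 2) H + 1) := by
      rw [pow_succ, ← hcard, ← hq]; omega
    have h4 : 2 ^ Module.finrank (ZMod 2) H < 2 ^ (k + 1) := by
      rw [← hcard, pow_succ, ← hq]; omega
    have h5 := (Nat.pow_lt_pow_iff_right (by norm_num : 1 < 2)).1 h3
    have h6 := (Nat.pow_lt_pow_iff_right (by norm_num : 1 < 2)).1 h4
    omega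
  · intro x hx
    have := (hH x).1 hx
    exact Finset.add_subset_add (sdiff_subset.trans hX₁) (sdiff_subset.trans hX₁) this

end Pool.Agent.Helper64.Cayley
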