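import Mathlib
import Pool.Agent.Helper64.Struct3

/-!
# Counting, part 1: for most `A`, all cliques are light
-/

set_option autoImplicit false
set_option linter.unusedSectionVars false

open Finset
open scoped Pointwise

namespace Pool.Agent.Helper64.Cayley

variable {G : Type*} [AddCommGroup G] [Module (ZMod 2) G] [Fintype G] [DecidableEq G]

/-- number of supersets -/
theorem card_supersets (W : Finset G) :
    (univ.filter (fun A : Finset G => W ⊆ A)).card * 2 ^ W.card = 2 ^ Fintype.card G := by
  have h1 : univ.filter (fun A : Finset G => W ⊆ A) = Finset.Icc W univ := by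
    ext A; simp
  rw [h1, Finset.card_Icc_finset (subset_univ W), ← pow_add, Finset.card_univ,
    Nat.sub_add_cancel (card_le_univ W)]

theorem card_supersets_le (W : Finset G) (e : ℕ) (he : e ≤ W.card) :
    (univ.filter (fun A : Finset G => W ⊆ A)).card * 2 ^ e ≤ 2 ^ Fintype.card G := by
  rw [← card_supersets W]
  exact Nat.mul_le_mul_left _ (Nat.pow_le_pow_right (by norm_num) he)

/-- number of sets of given rank and size -/
theorem card_rank_size (r s : ℕ) :
    (univ.filter (fun Z : Finset G => rk Z = r ∧ Z.card = s)).card ≤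
      Fintype.card G ^ r * (2 ^ r) ^ s := by
  set F : (Fin r → G) × (Fin s → Fin r → ZMod 2) → Finset G :=
    fun p => univ.image (fun i : Fin s => ∑ j : Fin r, p.2 i j • p.1 j) with hF
  have hsub : univ.filter (fun Z : Finset G => rk Z = r ∧ Z.card = s) ⊆
      univ.image F := by
    intro Z hZ
    rw [mem_filter] at hZ
    obtain ⟨_, hr, hs⟩ := hZ
    set U := Submodule.span (ZMod 2) (Z : Set G) with hU
    have hfr : Module.finrank (ZMod 2) U = r := hr
    set c := Module.finBasisOfFinrankEq (ZMod 2) U hfr with hc
    set e := Finset.equivFinOfCardEq hs with he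
    rw [mem_image]
    refine ⟨(fun j => (c j : G), fun i j => c.repr
      ⟨(e.symm i : G), Submodule.subset_span (by exact_mod_cast (e.symm i).2)⟩ j), mem_univ _, ?_⟩
    have key : ∀ i : Fin s, ∑ j : Fin r, (c.repr
        ⟨(e.symm i : G), Submodule.subset_span (by exact_mod_cast (e.symm i).2)⟩ j) • (c j : G) =
        (e.symm i : G) := by
      intro i
      have h1 := c.sum_repr ⟨(e.symm i : G),
        Submodule.subset_span (by exact_mod_cast (e.symm i).2)⟩
      have h2 := congrArg (fun z : U => (z : G)) h1
      simp only [Submodule.coe_sum, Submodule.coe_smul] at h2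
      exact h2
    simp only [hF]
    ext x
    rw [mem_image]
    constructor
    · rintro ⟨i, _, rfl⟩
      rw [key i]
      exact (e.symm i).2
    · intro hx
      refine ⟨e ⟨x, hx⟩, mem_univ _, ?_⟩
      rw [key (e ⟨x, hx⟩), Equiv.symm_apply_apply]
  calc (univ.filter (fun Z : Finset G => rk Z = r ∧ Z.card = s)).card
      ≤ (univ.image F).card := Finset.card_le_card hsub
    _ ≤ (univ : Finset ((Fin r → G) × (Fin s → Fin r → ZMod 2))).card := card_image_le
    _ = _ := by
      rw [Finset.card_univ, Fintype.card_prod, Fintype.card_fun, Fintype.card_fun,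
        Fintype.card_fun, Fintype.card_fin, Fintype.card_fin, ZMod.card]

/-- `A` contains all sums of two different elements of `Z` -/
def IsCl (A Z : Finset G) : Prop := ∀ x ∈ Z, ∀ y ∈ Z, x ≠ y → x + y ∈ A

theorem erase_subset_of_isCl {A Z : Finset G} (h : IsCl A Z) : (Z + Z).erase 0 ⊆ A := by
  intro x hx
  obtain ⟨hx0, hx⟩ := mem_erase.1 hx
  obtain ⟨a, ha, b, hb, rfl⟩ := mem_add.1 hx
  apply h a ha b hb
  rintro rfl
  exact hx0 (add_self_zero a)

/-- the sets `A` for which some clique of size at most `q` is not light -/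
noncomputable def badSets (n q : ℕ) : Finset (Finset G) := by
  classical
  exact univ.filter (fun A : Finset G => ∃ Z : Finset G, Z.card ≤ q ∧ IsCl A Z ∧
    rk Z * (n + Z.card) + n < (Z + Z).card)

theorem card_badSets (n q : ℕ) (hG : Fintype.card G = 2 ^ n) :
    (badSets (G := G) n q).card * 2 ^ n ≤ (n + 1) * (q + 1) * 2 ^ Fintype.card G := by
  classical
  have hfr : Module.finrank (ZMod 2) G = n := by
    have h := Module.card_eq_pow_finrank (K := ZMod 2) (V := G)
    rw [hG, ZMod.card] at h
    exact (Nat.pow_right_injective (le_refl 2) h).symm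
  have hsub : badSets (G := G) n q ⊆ (range (n + 1) ×ˢ range (q + 1)).biUnion (fun p =>
      (univ.filter (fun Z : Finset G => (rk Z = p.1 ∧ Z.card = p.2) ∧
        p.1 * (n + p.2) + n < (Z + Z).card)).biUnion
        (fun Z => univ.filter (fun A : Finset G => (Z + Z).erase 0 ⊆ A))) := by
    intro A hA
    unfold badSets at hA
    rw [mem_filter] at hA
    obtain ⟨_, Z, hZq, hcl, hlt⟩ := hA
    rw [mem_biUnion]
    refine ⟨(rk Z, Z.card), ?_, ?_⟩
    · rw [mem_product, mem_range, mem_range]
      have := rk_le_finrank Z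
      constructor
      · show rk Z < n + 1
        omega
      · show Z.card < q + 1
        omega
    · rw [mem_biUnion]
      refine ⟨Z, mem_filter.2 ⟨mem_univ _, ⟨rfl, rfl⟩, hlt⟩, ?_⟩
      rw [mem_filter]
      exact ⟨mem_univ _, erase_subset_of_isCl hcl⟩
  have hinner : ∀ p : ℕ × ℕ, ((univ.filter (fun Z : Finset G => (rk Z = p.1 ∧ Z.card = p.2) ∧
        p.1 * (n + p.2) + n < (Z + Z).card)).biUnion
        (fun Z => univ.filter (fun A : Finset G => (Z + Z).erase 0 ⊆ A))).card * 2 ^ n ≤
        2 ^ Fintype.card G := by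
    intro p
    obtain ⟨r, s⟩ := p
    set e := r * (n + s) with he
    have h1 : ((univ.filter (fun Z : Finset G => (rk Z = r ∧ Z.card = s) ∧
        r * (n + s) + n < (Z + Z).card)).biUnion
        (fun Z => univ.filter (fun A : Finset G => (Z + Z).erase 0 ⊆ A))).card * 2 ^ (e + n) ≤
        2 ^ e * 2 ^ Fintype.card G := by
      calc _ ≤ (∑ Z ∈ univ.filter (fun Z : Finset G => (rk Z = r ∧ Z.card = s) ∧
            r * (n + s) + n < (Z + Z).card),
            (univ.filter (fun A : Finset G => (Z + Z).erase 0 ⊆ A)).card) * 2 ^ (e + n) :=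
            Nat.mul_le_mul_right _ card_biUnion_le
        _ = ∑ Z ∈ univ.filter (fun Z : Finset G => (rk Z = r ∧ Z.card = s) ∧
            r * (n + s) + n < (Z + Z).card),
            (univ.filter (fun A : Finset G => (Z + Z).erase 0 ⊆ A)).card * 2 ^ (e + n) :=
            Finset.sum_mul _ _ _
        _ ≤ ∑ Z ∈ univ.filter (fun Z : Finset G => (rk Z = r ∧ Z.card = s) ∧
            r * (n + s) + n < (Z + Z).card), 2 ^ Fintype.card G := by
            apply Finset.sum_le_sum
            intro Z hZ
            apply card_supersets_le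
            have h2 := (mem_filter.1 hZ).2.2
            have h3 : (Z + Z).card - 1 ≤ ((Z + Z).erase 0).card := Finset.pred_card_le_card_erase
            omega
        _ = (univ.filter (fun Z : Finset G => (rk Z = r ∧ Z.card = s) ∧
            r * (n + s) + n < (Z + Z).card)).card * 2 ^ Fintype.card G := by
            rw [Finset.sum_const, smul_eq_mul]
        _ ≤ 2 ^ e * 2 ^ Fintype.card G := by
            apply Nat.mul_le_mul_right
            calc _ ≤ (univ.filter (fun Z : Finset G => rk Z = r ∧ Z.card = s)).card := by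
                  apply Finset.card_le_card
                  intro Z hZ
                  rw [mem_filter] at hZ ⊢
                  exact ⟨hZ.1, hZ.2.1⟩
              _ ≤ Fintype.card G ^ r * (2 ^ r) ^ s := card_rank_size r s
              _ = 2 ^ e := by
                  rw [hG, ← pow_mul, ← pow_mul, ← pow_add, he]
                  congr 1; ring
    rw [pow_add] at h1
    have h2 : 2 ^ e * (((univ.filter (fun Z : Finset G => (rk Z = r ∧ Z.card = s) ∧
        r * (n + s) + n < (Z + Z).card)).biUnion
        (fun Z => univ.filter (fun A : Finset G => (Z + Z).erase 0 ⊆ A))).card * 2 ^ n) ≤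
        2 ^ e * 2 ^ Fintype.card G := by
      calc _ = _ := by ring
        _ ≤ _ := h1
    exact Nat.le_of_mul_le_mul_left h2 (by positivity)
  calc (badSets (G := G) n q).card * 2 ^ n ≤ _ * 2 ^ n :=
        Nat.mul_le_mul_right _ (Finset.card_le_card hsub)
    _ ≤ (∑ p ∈ range (n + 1) ×ˢ range (q + 1), _) * 2 ^ n :=
        Nat.mul_le_mul_right _ card_biUnion_le
    _ = ∑ p ∈ range (n + 1) ×ˢ range (q + 1), _ := Finset.sum_mul _ _ _
    _ ≤ ∑ p ∈ range (n + 1) ×ˢ range (q + 1), 2 ^ Fintype.card G :=
        Finset.sum_le_sum fun p _ => hinner p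
    _ = (n + 1) * (q + 1) * 2 ^ Fintype.card G := by
        rw [Finset.sum_const, smul_eq_mul, card_product, card_range, card_range]

theorem light_of_not_bad {n q : ℕ} {A X : Finset G} (hA : A ∉ badSets (G := G) n q)
    (hX : IsCl A X) (hXq : X.card ≤ q) : Light n X := by
  classical
  intro Z hZ
  by_contra hcon
  push Not at hcon
  apply hA
  unfold badSets
  rw [mem_filter]
  exact ⟨mem_univ _, Z, (Finset.card_le_card hZ).trans hXq,
    fun x hx y hy => hX x (hZ hx) y (hZ hy), hcon⟩

end Pool.Agent.Helper64.Cayley
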