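import Mathlib
import Pool.Agent.Helper64.Count1

/-!
# Counting, part 2: with positive probability `A ∪ {0}` contains no `k`-dimensional subspace
-/

set_option autoImplicit false
set_option linter.unusedSectionVars false

open Finset

namespace Pool.Agent.Helper64.Cayley

variable {G : Type*} [AddCommGroup G] [Module (ZMod 2) G] [Fintype G] [DecidableEq G]

theorem prod_lower (k j : ℕ) (hj : j ≤ k) :
    2 ^ (k * j) * (2 ^ k - 2 ^ j) ≤ (∏ i ∈ range j, (2 ^ k - 2 ^ i)) * 2 ^ k := by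
  induction j with
  | zero => simp
  | succ j ih =>
    have ih' := ih (by omega)
    rw [prod_range_succ]
    have h1 : 2 ^ j ≤ 2 ^ k := Nat.pow_le_pow_right (by norm_num) (by omega)
    have h2 : 2 ^ (j + 1) ≤ 2 ^ k := Nat.pow_le_pow_right (by norm_num) hj
    obtain ⟨d, hd⟩ := Nat.exists_eq_add_of_le h1
    have h3 : 2 ^ k * (2 ^ k - 2 ^ (j + 1)) ≤ (2 ^ k - 2 ^ j) * (2 ^ k - 2 ^ j) := by
      have e1 : 2 ^ k - 2 ^ j = d := by omega
      have e2 : 2 ^ k - 2 ^ (j + 1) = d - 2 ^ j := by rw [pow_succ]; omega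
      rw [e1, e2]
      have h4 : 2 ^ j ≤ d := by rw [pow_succ] at h2; omega
      obtain ⟨c, hc⟩ := Nat.exists_eq_add_of_le h4
      rw [hd, hc]
      have e3 : 2 ^ j + c - 2 ^ j = c := by omega
      rw [e3]
      have e4 : (2 ^ j + c) * (2 ^ j + c) = (2 ^ j + (2 ^ j + c)) * c + 2 ^ j * 2 ^ j := by ring
      rw [e4]
      exact Nat.le_add_right _ _
    calc 2 ^ (k * (j + 1)) * (2 ^ k - 2 ^ (j + 1))
        = 2 ^ (k * j) * (2 ^ k * (2 ^ k - 2 ^ (j + 1))) := by rw [Nat.mul_add, pow_add]; ring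
      _ ≤ 2 ^ (k * j) * ((2 ^ k - 2 ^ j) * (2 ^ k - 2 ^ j)) := Nat.mul_le_mul_left _ h3
      _ = (2 ^ (k * j) * (2 ^ k - 2 ^ j)) * (2 ^ k - 2 ^ j) := by ring
      _ ≤ ((∏ i ∈ range j, (2 ^ k - 2 ^ i)) * 2 ^ k) * (2 ^ k - 2 ^ j) :=
          Nat.mul_le_mul_right _ ih'
      _ = _ := by ring

theorem prod_lower' (k : ℕ) (hk : 0 < k) :
    2 ^ (k * k) ≤ 4 * ∏ i ∈ range k, (2 ^ k - 2 ^ i) := by
  obtain ⟨j, rfl⟩ : ∃ j, k = j + 1 := ⟨k - 1, by omega⟩
  have h := prod_lower (j + 1) j (by omega)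
  have e1 : 2 ^ (j + 1) - 2 ^ j = 2 ^ j := by rw [pow_succ]; omega
  rw [e1] at h
  rw [prod_range_succ, e1]
  have h2 : 2 ^ ((j + 1) * (j + 1)) = 2 * (2 ^ ((j + 1) * j) * 2 ^ j) := by
    have h21 : (j + 1) * (j + 1) = (j + 1) * j + j + 1 := by ring
    rw [h21, pow_succ, pow_add]; ring
  have h3 : (∏ i ∈ range j, (2 ^ (j + 1) - 2 ^ i)) * 2 ^ (j + 1) =
      2 * ((∏ i ∈ range j, (2 ^ (j + 1) - 2 ^ i)) * 2 ^ j) := by rw [pow_succ]; ring
  rw [h3] at h
  omega

/-- number of `k`-dimensional subspaces -/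
theorem card_subspaces (k w q n : ℕ) (hk : 0 < k) (hkw : k * w = q) (hn : n = k + w)
    (hG : Fintype.card G = 2 ^ n) (S : Finset (Submodule (ZMod 2) G))
    (hS : ∀ H ∈ S, Module.finrank (ZMod 2) H = k) : S.card ≤ 2 ^ (q + 2) := by
  classical
  have : Fintype (Submodule (ZMod 2) G) := Fintype.ofFinite _
  have hfin : ∀ H : S, Finite {s : Fin k → H.1 // LinearIndependent (ZMod 2) s} :=
    fun H => inferInstance
  set f : (Σ H : S, {s : Fin k → H.1 // LinearIndependent (ZMod 2) s}) → (Fin k → G) :=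
    fun p i => (p.2.1 i : G) with hf
  have hspan : ∀ H : S, ∀ s : {s : Fin k → H.1 // LinearIndependent (ZMod 2) s},
      Submodule.span (ZMod 2) (Set.range (fun i => ((s.1 i : H.1) : G))) = H.1 := by
    intro H s
    have hk' : Module.finrank (ZMod 2) H.1 = k := hS H.1 H.2
    have h1 : Submodule.span (ZMod 2) (Set.range s.1) = ⊤ := by
      have : Nonempty (Fin k) := ⟨⟨0, hk⟩⟩
      exact s.2.span_eq_top_of_card_eq_finrank' (by rw [Fintype.card_fin, hk'])
    have h2 : Set.range (fun i => ((s.1 i : H.1) : G)) = H.1.subtype '' (Set.range s.1) := by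
      rw [← Set.range_comp]; rfl
    rw [h2, Submodule.span_image, h1, Submodule.map_top, Submodule.range_subtype]
  have hinj : Function.Injective f := by
    rintro ⟨H, s⟩ ⟨H', s'⟩ h
    have h' : (fun i => ((s.1 i : H.1) : G)) = (fun i => ((s'.1 i : H'.1) : G)) := h
    have e1 := hspan H s
    have e2 := hspan H' s'
    rw [h', e2] at e1
    have e3 : H' = H := Subtype.ext e1
    subst e3
    congr 1
    apply Subtype.ext
    funext i
    exact Subtype.ext (congrFun h' i)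
  have hc1 : Nat.card (Σ H : S, {s : Fin k → H.1 // LinearIndependent (ZMod 2) s}) =
      S.card * ∏ i ∈ range k, (2 ^ k - 2 ^ i) := by
    rw [Nat.card_sigma]
    have : ∀ H : S, Nat.card {s : Fin k → H.1 // LinearIndependent (ZMod 2) s} =
        ∏ i ∈ range k, (2 ^ k - 2 ^ i) := by
      intro H
      have hk' : Module.finrank (ZMod 2) H.1 = k := hS H.1 H.2
      rw [card_linearIndependent (by rw [hk']), hk', ZMod.card, ← Fin.prod_univ_eq_prod_range]
    rw [Finset.sum_congr rfl (fun H _ => this H), Finset.sum_const, smul_eq_mul,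
      Finset.card_univ, Fintype.card_coe]
  have hc2 : Nat.card (Fin k → G) = 2 ^ (k * k) * 2 ^ q := by
    rw [Nat.card_eq_fintype_card, Fintype.card_fun, Fintype.card_fin, hG, ← pow_mul, ← pow_add]
    congr 1
    rw [hn, ← hkw]; ring
  have h3 := Nat.card_le_card_of_injective f hinj
  rw [hc1, hc2] at h3
  have h4 := prod_lower' k hk
  have h5 : 2 ^ (k * k) * S.card ≤ 2 ^ (k * k) * 2 ^ (q + 2) := by
    calc 2 ^ (k * k) * S.card ≤ (4 * ∏ i ∈ range k, (2 ^ k - 2 ^ i)) * S.card :=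
          Nat.mul_le_mul_right _ h4
      _ = 4 * (S.card * ∏ i ∈ range k, (2 ^ k - 2 ^ i)) := by ring
      _ ≤ 4 * (2 ^ (k * k) * 2 ^ q) := Nat.mul_le_mul_left _ h3
      _ = _ := by rw [pow_add]; ring
  exact Nat.le_of_mul_le_mul_left h5 (by positivity)

/-- sets missing a nonzero element of each member of `S` -/
noncomputable def avoid (S : Finset (Submodule (ZMod 2) G)) : Finset (Finset G) := by
  classical
  exact univ.filter (fun A : Finset G => ∀ H ∈ S, ∃ h ∈ H, h ≠ 0 ∧ h ∉ A)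

theorem isLowerSet_avoid (S : Finset (Submodule (ZMod 2) G)) :
    IsLowerSet (avoid S : Set (Finset G)) := by
  classical
  intro A B hBA hA
  rw [mem_coe] at hA ⊢
  unfold avoid at hA ⊢
  rw [mem_filter] at hA ⊢
  refine ⟨mem_univ _, fun H hH => ?_⟩
  obtain ⟨h, h1, h2, h3⟩ := hA.2 H hH
  exact ⟨h, h1, h2, fun h4 => h3 (hBA h4)⟩

theorem card_avoid_singleton (k Q : ℕ) (hQ : Q + 1 = 2 ^ k) (H : Submodule (ZMod 2) G)
    (hH : Module.finrank (ZMod 2) H = k) :
    (avoid {H}).card * 2 ^ Q = 2 ^ Fintype.card G * (2 ^ Q - 1) := by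
  classical
  set W : Finset G := univ.filter (fun h => h ∈ H ∧ h ≠ 0) with hW
  have hWc : W.card = Q := by
    have h1 : insert (0 : G) W = univ.filter (fun h => h ∈ H) := by
      ext x
      rw [mem_insert, hW, mem_filter, mem_filter]
      constructor
      · rintro (rfl | h)
        · exact ⟨mem_univ _, H.zero_mem⟩
        · exact ⟨mem_univ _, h.2.1⟩
      · intro h
        by_cases hx : x = 0
        · exact Or.inl hx
        · exact Or.inr ⟨mem_univ _, h.2, hx⟩
    have h2 : (0 : G) ∉ W := by rw [hW, mem_filter]; simp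
    have h3 : (univ.filter (fun h => h ∈ H)).card = 2 ^ k := by
      rw [← Fintype.card_subtype]
      have := Module.card_eq_pow_finrank (K := ZMod 2) (V := H)
      rw [hH, ZMod.card] at this
      rw [← this]
    rw [← h1, card_insert_of_notMem h2] at h3
    omega
  have h1 : (avoid {H}).card + (univ.filter (fun A : Finset G => W ⊆ A)).card =
      2 ^ Fintype.card G := by
    have h2 : avoid {H} = univ.filter (fun A : Finset G => ¬ (W ⊆ A)) := by
      unfold avoid
      apply Finset.filter_congr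
      intro A _
      rw [Finset.not_subset]
      constructor
      · intro h
        obtain ⟨x, hx, hx0, hxA⟩ := h H (mem_singleton_self H)
        exact ⟨x, by rw [hW, mem_filter]; exact ⟨mem_univ _, hx, hx0⟩, hxA⟩
      · rintro ⟨x, hx, hxA⟩ H' hH'
        rw [mem_singleton] at hH'
        subst hH'
        rw [hW, mem_filter] at hx
        exact ⟨x, hx.2.1, hx.2.2, hxA⟩
    rw [h2, add_comm, card_filter_add_card_filter_not, Finset.card_univ, Fintype.card_finset]
  have h2 := card_supersets W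
  rw [hWc] at h2
  have h3 : 2 ^ Fintype.card G * 2 ^ Q = (avoid {H}).card * 2 ^ Q + 2 ^ Fintype.card G := by
    calc 2 ^ Fintype.card G * 2 ^ Q = ((avoid {H}).card +
          (univ.filter (fun A : Finset G => W ⊆ A)).card) * 2 ^ Q := by rw [h1]
      _ = (avoid {H}).card * 2 ^ Q + (univ.filter (fun A : Finset G => W ⊆ A)).card * 2 ^ Q := by
        ring
      _ = _ := by rw [h2]
  rw [Nat.mul_sub, mul_one]
  omega

theorem card_avoid (k Q : ℕ) (hQ : Q + 1 = 2 ^ k) (S : Finset (Submodule (ZMod 2) G))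
    (hS : ∀ H ∈ S, Module.finrank (ZMod 2) H = k) :
    2 ^ Fintype.card G * (2 ^ Q - 1) ^ S.card ≤ (2 ^ Q) ^ S.card * (avoid S).card := by
  classical
  induction S using Finset.induction_on with
  | empty =>
    simp only [card_empty, pow_zero, mul_one, one_mul]
    have : avoid (∅ : Finset (Submodule (ZMod 2) G)) = univ := by
      unfold avoid; simp
    rw [this, Finset.card_univ, Fintype.card_finset]
  | insert H S hHS ih =>
    have ih' := ih (fun H' h' => hS H' (mem_insert_of_mem h'))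
    have h1 := card_avoid_singleton k Q hQ H (hS H (mem_insert_self _ _))
    have h2 := (isLowerSet_avoid S).le_card_inter_finset (isLowerSet_avoid {H})
    have h3 : avoid S ∩ avoid {H} = avoid (insert H S) := by
      unfold avoid
      ext A
      simp only [mem_inter, mem_filter, mem_univ, true_and, mem_insert, mem_singleton]
      constructor
      · rintro ⟨ha, hb⟩ H' (rfl | hH')
        · exact hb _ rfl
        · exact ha _ hH'
      · intro h
        exact ⟨fun H' hH' => h H' (Or.inr hH'), fun H' hH' => h H' (Or.inl hH')⟩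
    rw [h3] at h2
    rw [card_insert_of_notMem hHS, pow_succ, pow_succ]
    have h4 : 2 ^ Fintype.card G * ((avoid S).card * (2 ^ Q - 1)) ≤
        2 ^ Fintype.card G * (2 ^ Q * (avoid (insert H S)).card) := by
      calc 2 ^ Fintype.card G * ((avoid S).card * (2 ^ Q - 1))
          = (avoid S).card * (2 ^ Fintype.card G * (2 ^ Q - 1)) := by ring
        _ = (avoid S).card * ((avoid {H}).card * 2 ^ Q) := by rw [h1]
        _ = ((avoid S).card * (avoid {H}).card) * 2 ^ Q := by ring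
        _ ≤ (2 ^ Fintype.card G * (avoid (insert H S)).card) * 2 ^ Q :=
            Nat.mul_le_mul_right _ h2
        _ = _ := by ring
    have h5 := Nat.le_of_mul_le_mul_left h4 (by positivity)
    calc 2 ^ Fintype.card G * ((2 ^ Q - 1) ^ S.card * (2 ^ Q - 1))
        = (2 ^ Fintype.card G * (2 ^ Q - 1) ^ S.card) * (2 ^ Q - 1) := by ring
      _ ≤ ((2 ^ Q) ^ S.card * (avoid S).card) * (2 ^ Q - 1) := Nat.mul_le_mul_right _ ih'
      _ = (2 ^ Q) ^ S.card * ((avoid S).card * (2 ^ Q - 1)) := by ring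
      _ ≤ (2 ^ Q) ^ S.card * (2 ^ Q * (avoid (insert H S)).card) := Nat.mul_le_mul_left _ h5
      _ = _ := by ring

theorem card_avoid_ge (k w q n : ℕ) (hk : 0 < k) (hq : q = 2 ^ k) (hkw : k * w = q)
    (hn : n = k + w) (hG : Fintype.card G = 2 ^ n) (S : Finset (Submodule (ZMod 2) G))
    (hS : ∀ H ∈ S, Module.finrank (ZMod 2) H = k) :
    2 ^ Fintype.card G ≤ 2 ^ 16 * (avoid S).card := by
  have hL := card_subspaces k w q n hk hkw hn hG S hS
  obtain ⟨Q, hQ⟩ : ∃ Q, Q + 1 = 2 ^ k := ⟨2 ^ k - 1, by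
    have : 0 < 2 ^ k := by positivity
    omega⟩
  have hQ1 : 1 ≤ Q := by
    have : 2 ^ 1 ≤ 2 ^ k := Nat.pow_le_pow_right (by norm_num) hk
    omega
  have h1 := card_avoid k Q hQ S hS
  -- work in the reals
  set x : ℝ := 1 - 1 / 2 ^ Q with hx
  have h2Q : (2 : ℝ) ≤ 2 ^ Q := by
    calc (2 : ℝ) = 2 ^ 1 := by norm_num
      _ ≤ 2 ^ Q := pow_le_pow_right₀ (by norm_num) hQ1
  have hx0 : 0 < x := by
    have : 1 / (2 : ℝ) ^ Q ≤ 1 / 2 := one_div_le_one_div_of_le (by norm_num) h2Q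
    rw [hx]; linarith
  have hx1 : x ≤ 1 := by
    have : 0 < 1 / (2 : ℝ) ^ Q := by positivity
    rw [hx]; linarith
  have hhalf : 1 / 2 ≤ x ^ (2 ^ (Q - 1)) := by
    have hb := one_add_mul_le_pow (a := -(1 / (2 : ℝ) ^ Q)) (by
      have : 1 / (2 : ℝ) ^ Q ≤ 1 / 2 := one_div_le_one_div_of_le (by norm_num) h2Q
      linarith) (2 ^ (Q - 1))
    have e1 : ((2 ^ (Q - 1) : ℕ) : ℝ) * (1 / (2 : ℝ) ^ Q) = 1 / 2 := by
      have : (2 : ℝ) ^ Q = 2 ^ (Q - 1) * 2 := by rw [← pow_succ]; congr 1; omega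
      rw [this]; push_cast; field_simp
    have e2 : 1 + ((2 ^ (Q - 1) : ℕ) : ℝ) * -(1 / (2 : ℝ) ^ Q) = 1 / 2 := by
      rw [mul_neg, e1]; norm_num
    rw [e2] at hb
    have e3 : 1 + -(1 / (2 : ℝ) ^ Q) = x := by rw [hx]; ring
    rw [e3] at hb
    exact hb
  have h16 : (1 / 2 : ℝ) ^ 16 ≤ x ^ S.card := by
    calc (1 / 2 : ℝ) ^ 16 ≤ (x ^ (2 ^ (Q - 1))) ^ 16 := pow_le_pow_left₀ (by norm_num) hhalf 16
      _ = x ^ (2 ^ (Q - 1) * 16) := by rw [pow_mul]
      _ ≤ x ^ S.card := by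
        apply pow_le_pow_of_le_one hx0.le hx1
        calc S.card ≤ 2 ^ (q + 2) := hL
          _ = 2 ^ (Q - 1) * 16 := by
            have : q + 2 = (Q - 1) + 4 := by omega
            rw [this, pow_add]; norm_num
  have h1r : (2 : ℝ) ^ Fintype.card G * ((2 : ℝ) ^ Q - 1) ^ S.card ≤
      ((2 : ℝ) ^ Q) ^ S.card * (avoid S).card := by
    have h := h1
    have hcast : ((2 ^ Q - 1 : ℕ) : ℝ) = (2 : ℝ) ^ Q - 1 := by
      rw [Nat.cast_sub (Nat.one_le_two_pow)]; push_cast; ring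
    have h' : ((2 ^ Fintype.card G * (2 ^ Q - 1) ^ S.card : ℕ) : ℝ) ≤
      (((2 ^ Q) ^ S.card * (avoid S).card : ℕ) : ℝ) := by exact_mod_cast h
    rw [Nat.cast_mul, Nat.cast_pow (2 ^ Q - 1), hcast] at h'
    push_cast at h'
    exact h'
  have h2 : (2 : ℝ) ^ Q - 1 = 2 ^ Q * x := by
    rw [hx]; field_simp
  rw [h2, mul_pow] at h1r
  have hpos : (0 : ℝ) < ((2 : ℝ) ^ Q) ^ S.card := by positivity
  have h3 : (2 : ℝ) ^ Fintype.card G * x ^ S.card ≤ (avoid S).card := by
    have : ((2 : ℝ) ^ Q) ^ S.card * ((2 : ℝ) ^ Fintype.card G * x ^ S.card) ≤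
        ((2 : ℝ) ^ Q) ^ S.card * (avoid S).card := by
      calc _ = (2 : ℝ) ^ Fintype.card G * (((2 : ℝ) ^ Q) ^ S.card * x ^ S.card) := by ring
        _ ≤ _ := h1r
    exact le_of_mul_le_mul_left this hpos
  have h4 : (2 : ℝ) ^ Fintype.card G * (1 / 2 : ℝ) ^ 16 ≤ (avoid S).card :=
    (mul_le_mul_of_nonneg_left h16 (by positivity)).trans h3
  have h5 : (2 : ℝ) ^ Fintype.card G ≤ 2 ^ 16 * (avoid S).card := by
    have : (1 / 2 : ℝ) ^ 16 * 2 ^ 16 = 1 := by norm_num
    nlinarith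
  exact_mod_cast h5

end Pool.Agent.Helper64.Cayley
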