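import Mathlib
import Pool.Agent.Helper64.Count2

/-!
# Counting, part 3: with probability at least 1/2 `A` contains the graph of a linear map
-/

set_option autoImplicit false
set_option linter.unusedSectionVars false

open Finset

namespace Pool.Agent.Helper64.Cayley

section Moment

variable {E F : Type*} [AddCommGroup E] [Module (ZMod 2) E] [Fintype E] [DecidableEq E]
  [AddCommGroup F] [Module (ZMod 2) F] [Fintype F] [DecidableEq F]

/-- the nonzero part of the graph of a linear map -/
def graphSet (T : E →ₗ[ZMod 2] F) : Finset (E × F) :=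
  (univ.filter (fun x : E => x ≠ 0)).image (fun x => (x, T x))

/-- number of nonzero elements of the kernel -/
def kap (S : E →ₗ[ZMod 2] F) : ℕ := (univ.filter (fun x : E => x ≠ 0 ∧ S x = 0)).card

theorem card_graphSet (T : E →ₗ[ZMod 2] F) (Q : ℕ) (hQ : Q + 1 = Fintype.card E) :
    (graphSet T).card = Q := by
  unfold graphSet
  rw [card_image_of_injective _ (fun x y h => (Prod.mk.inj h).1)]
  have h1 : univ.filter (fun x : E => x ≠ 0) = univ.erase 0 := by ext x; simp
  rw [h1, card_erase_of_mem (mem_univ _), Finset.card_univ]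
  omega

theorem card_graphSet_inter (T T' : E →ₗ[ZMod 2] F) :
    (graphSet T ∩ graphSet T').card = kap (T - T') := by
  have h : graphSet T ∩ graphSet T' =
      (univ.filter (fun x : E => x ≠ 0 ∧ (T - T') x = 0)).image (fun x => (x, T x)) := by
    ext p
    unfold graphSet
    rw [mem_inter, mem_image, mem_image, mem_image]
    constructor
    · rintro ⟨⟨x, hx, rfl⟩, ⟨y, _, hy⟩⟩
      have h1 := Prod.mk.inj hy
      refine ⟨x, ?_, rfl⟩
      rw [mem_filter] at hx ⊢
      refine ⟨mem_univ _, hx.2, ?_⟩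
      rw [LinearMap.sub_apply, ← h1.2, h1.1, sub_self]
    · rintro ⟨x, hx, rfl⟩
      rw [mem_filter] at hx
      have hx2 : T x = T' x := by
        have := hx.2.2
        rw [LinearMap.sub_apply] at this
        exact sub_eq_zero.1 this
      exact ⟨⟨x, mem_filter.2 ⟨mem_univ _, hx.2.1⟩, rfl⟩,
        ⟨x, mem_filter.2 ⟨mem_univ _, hx.2.1⟩, by rw [hx2]⟩⟩
  rw [h, card_image_of_injective _ (fun x y h => (Prod.mk.inj h).1)]
  rfl

/-- sets containing the graph of a linear map, outside 0 -/
noncomputable def graphEvent (E F : Type*) [AddCommGroup E] [Module (ZMod 2) E] [Fintype E]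
    [DecidableEq E] [AddCommGroup F] [Module (ZMod 2) F] [Fintype F] [DecidableEq F] :
    Finset (Finset (E × F)) := by
  classical
  exact univ.filter (fun A : Finset (E × F) => ∃ T : E →ₗ[ZMod 2] F, graphSet T ⊆ A)

theorem mem_graphEvent (A : Finset (E × F)) :
    A ∈ graphEvent E F ↔ ∃ T : E →ₗ[ZMod 2] F, graphSet T ⊆ A := by
  unfold graphEvent; simp

theorem second_moment [Fintype (E →ₗ[ZMod 2] F)] (Q : ℕ) (hQ : Q + 1 = Fintype.card E) :
    Fintype.card (E →ₗ[ZMod 2] F) * 2 ^ Fintype.card (E × F) ≤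
      (graphEvent E F).card * ∑ S : E →ₗ[ZMod 2] F, 2 ^ kap S := by
  classical
  set N := Fintype.card (E × F) with hN
  set tt := Fintype.card (E →ₗ[ZMod 2] F) with htt
  set Γ := ∑ S : E →ₗ[ZMod 2] F, 2 ^ kap S with hΓ
  set f : Finset (E × F) → ℕ := fun A => (univ.filter (fun T : E →ₗ[ZMod 2] F =>
    graphSet T ⊆ A)).card with hf
  have htt0 : 0 < tt := Fintype.card_pos
  have h1 : (∑ A : Finset (E × F), f A) * 2 ^ Q = tt * 2 ^ N := by
    have e1 : ∑ A : Finset (E × F), f A =
        ∑ T : E →ₗ[ZMod 2] F, (univ.filter (fun A : Finset (E × F) => graphSet T ⊆ A)).card := by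
      simp only [hf, Finset.card_filter]
      exact Finset.sum_comm
    rw [e1, Finset.sum_mul]
    calc ∑ T : E →ₗ[ZMod 2] F,
          (univ.filter (fun A : Finset (E × F) => graphSet T ⊆ A)).card * 2 ^ Q
        = ∑ T : E →ₗ[ZMod 2] F, 2 ^ N := by
          apply Finset.sum_congr rfl
          intro T _
          have := card_supersets (graphSet T)
          rwa [card_graphSet T Q hQ] at this
      _ = tt * 2 ^ N := by rw [Finset.sum_const, smul_eq_mul, Finset.card_univ]
  have h2 : (∑ A : Finset (E × F), f A ^ 2) * 2 ^ (2 * Q) = 2 ^ N * (tt * Γ) := by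
    have e1 : ∑ A : Finset (E × F), f A ^ 2 =
        ∑ T : E →ₗ[ZMod 2] F, ∑ T' : E →ₗ[ZMod 2] F,
          (univ.filter (fun A : Finset (E × F) => graphSet T ∪ graphSet T' ⊆ A)).card := by
      have e2 : ∀ A : Finset (E × F), f A ^ 2 = ∑ T : E →ₗ[ZMod 2] F, ∑ T' : E →ₗ[ZMod 2] F,
          if graphSet T ∪ graphSet T' ⊆ A then 1 else 0 := by
        intro A
        simp only [hf, Finset.card_filter]
        rw [pow_two, Finset.sum_mul_sum]
        refine Finset.sum_congr rfl fun T _ => Finset.sum_congr rfl fun T' _ => ?_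
        have hu : (graphSet T ∪ graphSet T' ⊆ A) ↔ (graphSet T ⊆ A ∧ graphSet T' ⊆ A) :=
          union_subset_iff
        by_cases ha : graphSet T ⊆ A <;> by_cases hb : graphSet T' ⊆ A <;> simp [ha, hb, hu]
      rw [Finset.sum_congr rfl (fun A _ => e2 A), Finset.sum_comm]
      refine Finset.sum_congr rfl fun T _ => ?_
      rw [Finset.sum_comm]
      refine Finset.sum_congr rfl fun T' _ => ?_
      rw [Finset.card_filter]
    rw [e1, Finset.sum_mul]
    calc ∑ T : E →ₗ[ZMod 2] F, (∑ T' : E →ₗ[ZMod 2] F,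
          (univ.filter (fun A : Finset (E × F) => graphSet T ∪ graphSet T' ⊆ A)).card) *
            2 ^ (2 * Q)
        = ∑ T : E →ₗ[ZMod 2] F, 2 ^ N * Γ := by
          apply Finset.sum_congr rfl
          intro T _
          rw [Finset.sum_mul, hΓ, Finset.mul_sum]
          have e3 : ∀ T' : E →ₗ[ZMod 2] F,
              (univ.filter (fun A : Finset (E × F) => graphSet T ∪ graphSet T' ⊆ A)).card *
                2 ^ (2 * Q) = 2 ^ N * 2 ^ kap (T - T') := by
            intro T'
            have e4 := card_supersets (graphSet T ∪ graphSet T')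
            have e5 := card_union_add_card_inter (graphSet T) (graphSet T')
            rw [card_graphSet_inter, card_graphSet T Q hQ, card_graphSet T' Q hQ] at e5
            rw [← hN] at e4
            rw [← e4, mul_assoc, ← pow_add, e5]
            congr 2; ring
          rw [Finset.sum_congr rfl (fun T' _ => e3 T')]
          exact Fintype.sum_equiv (Equiv.subLeft T) _ _ (fun T' => rfl)
      _ = 2 ^ N * (tt * Γ) := by
          rw [Finset.sum_const, smul_eq_mul, Finset.card_univ]; ring
  have h3 : (∑ A : Finset (E × F), f A) ^ 2 ≤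
      (graphEvent E F).card * ∑ A : Finset (E × F), f A ^ 2 := by
    have e1 : ∑ A : Finset (E × F), f A = ∑ A ∈ graphEvent E F, f A := by
      symm
      apply Finset.sum_subset (subset_univ _)
      intro A _ hA
      simp only [hf]
      rw [Finset.card_eq_zero, Finset.filter_eq_empty_iff]
      intro T _ hT
      exact hA ((mem_graphEvent A).2 ⟨T, hT⟩)
    rw [e1]
    calc (∑ A ∈ graphEvent E F, f A) ^ 2 ≤ ((graphEvent E F).card : ℕ) *
          ∑ A ∈ graphEvent E F, f A ^ 2 := sq_sum_le_card_mul_sum_sq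
      _ ≤ (graphEvent E F).card * ∑ A : Finset (E × F), f A ^ 2 := by
          apply Nat.mul_le_mul_left
          exact Finset.sum_le_sum_of_subset (subset_univ _)
  have h4 : (tt * 2 ^ N) * (tt * 2 ^ N) ≤ (tt * 2 ^ N) * ((graphEvent E F).card * Γ) := by
    calc (tt * 2 ^ N) * (tt * 2 ^ N) = (∑ A : Finset (E × F), f A) ^ 2 * 2 ^ (2 * Q) := by
          rw [← h1]; ring
      _ ≤ ((graphEvent E F).card * ∑ A : Finset (E × F), f A ^ 2) * 2 ^ (2 * Q) :=
          Nat.mul_le_mul_right _ h3
      _ = (graphEvent E F).card * ((∑ A : Finset (E × F), f A ^ 2) * 2 ^ (2 * Q)) := by ring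
      _ = (graphEvent E F).card * (2 ^ N * (tt * Γ)) := by rw [h2]
      _ = _ := by ring
  exact Nat.le_of_mul_le_mul_left h4 (by positivity)

theorem kap_eq (S : E →ₗ[ZMod 2] F) :
    kap S + 1 = 2 ^ Module.finrank (ZMod 2) (LinearMap.ker S) := by
  classical
  have h1 : insert (0 : E) (univ.filter (fun x : E => x ≠ 0 ∧ S x = 0)) =
      univ.filter (fun x : E => x ∈ LinearMap.ker S) := by
    ext x
    rw [mem_insert, mem_filter, mem_filter, LinearMap.mem_ker]
    constructor
    · rintro (rfl | h)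
      · exact ⟨mem_univ _, map_zero _⟩
      · exact ⟨mem_univ _, h.2.2⟩
    · intro h
      by_cases hx : x = 0
      · exact Or.inl hx
      · exact Or.inr ⟨mem_univ _, hx, h.2⟩
  have h2 : (0 : E) ∉ univ.filter (fun x : E => x ≠ 0 ∧ S x = 0) := by simp
  have h3 : (univ.filter (fun x : E => x ∈ LinearMap.ker S)).card =
      2 ^ Module.finrank (ZMod 2) (LinearMap.ker S) := by
    rw [← Fintype.card_subtype]
    have := Module.card_eq_pow_finrank (K := ZMod 2) (V := LinearMap.ker S)
    rw [ZMod.card] at this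
    rw [← this]
  rw [← h1, card_insert_of_notMem h2] at h3
  exact h3

theorem card_killing (w : ℕ) (hF : Fintype.card F = 2 ^ w)
    [Fintype (E →ₗ[ZMod 2] F)] (U : Submodule (ZMod 2) E)
    [DecidablePred (fun S : E →ₗ[ZMod 2] F => U ≤ LinearMap.ker S)] :
    (univ.filter (fun S : E →ₗ[ZMod 2] F => U ≤ LinearMap.ker S)).card ≤
      2 ^ ((Module.finrank (ZMod 2) E - Module.finrank (ZMod 2) U) * w) := by
  classical
  have hfw : Module.finrank (ZMod 2) F = w := by
    have h := Module.card_eq_pow_finrank (K := ZMod 2) (V := F)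
    rw [hF, ZMod.card] at h
    exact (Nat.pow_right_injective (le_refl 2) h).symm
  have hfin : Finite ((E ⧸ U) →ₗ[ZMod 2] F) := DFunLike.finite _
  have : Fintype ((E ⧸ U) →ₗ[ZMod 2] F) := Fintype.ofFinite _
  have h1 : Fintype.card ((E ⧸ U) →ₗ[ZMod 2] F) =
      2 ^ ((Module.finrank (ZMod 2) E - Module.finrank (ZMod 2) U) * w) := by
    rw [Module.card_eq_pow_finrank (K := ZMod 2), ZMod.card, Module.finrank_linearMap, hfw]
    congr 2
    have := Submodule.finrank_quotient_add_finrank U
    omega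
  rw [← h1, ← Fintype.card_subtype]
  refine Fintype.card_le_of_injective (fun S => U.liftQ S.1 S.2) ?_
  intro S S' h
  apply Subtype.ext
  have h2 := congrArg (fun L : (E ⧸ U) →ₗ[ZMod 2] F => L.comp U.mkQ) h
  simp only [Submodule.liftQ_mkQ] at h2
  exact h2

theorem card_ker_dim (k w d : ℕ) (hE : Fintype.card E = 2 ^ k) (hF : Fintype.card F = 2 ^ w)
    [Fintype (E →ₗ[ZMod 2] F)] :
    (univ.filter (fun S : E →ₗ[ZMod 2] F =>
      Module.finrank (ZMod 2) (LinearMap.ker S) = d)).card ≤ 2 ^ (k * d + (k - d) * w) := by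
  classical
  have hfk : Module.finrank (ZMod 2) E = k := by
    have h := Module.card_eq_pow_finrank (K := ZMod 2) (V := E)
    rw [hE, ZMod.card] at h
    exact (Nat.pow_right_injective (le_refl 2) h).symm
  have hsub : univ.filter (fun S : E →ₗ[ZMod 2] F =>
      Module.finrank (ZMod 2) (LinearMap.ker S) = d) ⊆
      (univ.filter (fun c : Fin d → E => LinearIndependent (ZMod 2) c)).biUnion
        (fun c => univ.filter (fun S : E →ₗ[ZMod 2] F =>
          Submodule.span (ZMod 2) (Set.range c) ≤ LinearMap.ker S)) := by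
    intro S hS
    have hd := (mem_filter.1 hS).2
    set b := Module.finBasisOfFinrankEq (ZMod 2) (LinearMap.ker S) hd with hb
    rw [mem_biUnion]
    refine ⟨fun i => (b i : E), mem_filter.2 ⟨mem_univ _, ?_⟩, mem_filter.2 ⟨mem_univ _, ?_⟩⟩
    · exact b.linearIndependent.map' (LinearMap.ker S).subtype (Submodule.ker_subtype _)
    · rw [Submodule.span_le]
      rintro x ⟨i, rfl⟩
      exact (b i).2
  calc (univ.filter (fun S : E →ₗ[ZMod 2] F =>
      Module.finrank (ZMod 2) (LinearMap.ker S) = d)).card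
      ≤ _ := Finset.card_le_card hsub
    _ ≤ ∑ c ∈ univ.filter (fun c : Fin d → E => LinearIndependent (ZMod 2) c),
          (univ.filter (fun S : E →ₗ[ZMod 2] F =>
          Submodule.span (ZMod 2) (Set.range c) ≤ LinearMap.ker S)).card := card_biUnion_le
    _ ≤ ∑ c ∈ univ.filter (fun c : Fin d → E => LinearIndependent (ZMod 2) c),
          2 ^ ((k - d) * w) := by
        apply Finset.sum_le_sum
        intro c hc
        have hli := (mem_filter.1 hc).2
        have h1 := card_killing (F := F) w hF (Submodule.span (ZMod 2) (Set.range c))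
        rw [finrank_span_eq_card hli, Fintype.card_fin, hfk] at h1
        exact h1
    _ = (univ.filter (fun c : Fin d → E => LinearIndependent (ZMod 2) c)).card *
          2 ^ ((k - d) * w) := by rw [Finset.sum_const, smul_eq_mul]
    _ ≤ 2 ^ (k * d) * 2 ^ ((k - d) * w) := by
        apply Nat.mul_le_mul_right
        calc _ ≤ Fintype.card (Fin d → E) := Finset.card_le_univ _
          _ = 2 ^ (k * d) := by rw [Fintype.card_fun, Fintype.card_fin, hE, ← pow_mul]
    _ = _ := by rw [← pow_add]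

end Moment

/-! ### Arithmetic for the second moment -/

theorem arith_a (d e : ℕ) (hd : 1 ≤ d) (hde : d ≤ e) : 2 ^ d * e ≤ d * 2 ^ e := by
  induction e, hde using Nat.le_induction with
  | base => rw [mul_comm]
  | succ e hde ih =>
    have h1 : 2 ^ d ≤ d * 2 ^ e := by
      calc 2 ^ d ≤ 2 ^ e := Nat.pow_le_pow_right (by norm_num) hde
        _ ≤ d * 2 ^ e := Nat.le_mul_of_pos_left _ hd
    calc 2 ^ d * (e + 1) = 2 ^ d * e + 2 ^ d := by ring
      _ ≤ d * 2 ^ e + d * 2 ^ e := Nat.add_le_add ih h1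
      _ = d * 2 ^ (e + 1) := by ring

theorem arith_b (k w d : ℕ) (hkw : k * w = 2 ^ k) (hk : 4 ≤ k) (hw : 6 * k ≤ w) (hd : 1 ≤ d)
    (hdk : d + 1 ≤ k) : 2 ^ d + k * d + k ≤ d * w := by
  obtain ⟨e, rfl⟩ : ∃ e, k = e + 1 := ⟨k - 1, by omega⟩
  have h1 := arith_a d e hd (by omega)
  have h2 : (e + 1) * (2 * (2 ^ d * e)) ≤ (e + 1) * (d * ((e + 1) * w)) := by
    calc (e + 1) * (2 * (2 ^ d * e)) ≤ (e + 1) * (2 * (d * 2 ^ e)) := by gcongr
      _ = (e + 1) * (d * 2 ^ (e + 1)) := by ring
      _ = (e + 1) * (d * ((e + 1) * w)) := by rw [hkw]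
  have h3 : 2 * (2 ^ d * e) ≤ d * ((e + 1) * w) := Nat.le_of_mul_le_mul_left h2 (by omega)
  have h4 : 3 * (e + 1) ≤ 4 * e := by omega
  have h5 : e * (6 * 2 ^ d) ≤ e * (4 * (d * w)) := by
    calc e * (6 * 2 ^ d) = 3 * (2 * (2 ^ d * e)) := by ring
      _ ≤ 3 * (d * ((e + 1) * w)) := Nat.mul_le_mul_left _ h3
      _ = (3 * (e + 1)) * (d * w) := by ring
      _ ≤ (4 * e) * (d * w) := Nat.mul_le_mul_right _ h4
      _ = e * (4 * (d * w)) := by ring
  have h6 : 6 * 2 ^ d ≤ 4 * (d * w) := Nat.le_of_mul_le_mul_left h5 (by omega)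
  have h7 : 6 * ((e + 1) * d) ≤ d * w := by
    calc 6 * ((e + 1) * d) = d * (6 * (e + 1)) := by ring
      _ ≤ d * w := Nat.mul_le_mul_left _ hw
  have h8 : (e + 1) ≤ (e + 1) * d := Nat.le_mul_of_pos_right _ hd
  omega

theorem gamma_le {E F : Type*} [AddCommGroup E] [Module (ZMod 2) E] [Fintype E] [DecidableEq E]
    [AddCommGroup F] [Module (ZMod 2) F] [Fintype F] [DecidableEq F]
    [Fintype (E →ₗ[ZMod 2] F)] (k w q : ℕ) (hE : Fintype.card E = 2 ^ k)
    (hF : Fintype.card F = 2 ^ w) (hq : q = 2 ^ k) (hkw : k * w = q) (hk : 4 ≤ k)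
    (hw : 6 * k ≤ w) : ∑ S : E →ₗ[ZMod 2] F, 2 ^ kap S ≤ 2 ^ (q + 1) := by
  classical
  have hfk : Module.finrank (ZMod 2) E = k := by
    have h := Module.card_eq_pow_finrank (K := ZMod 2) (V := E)
    rw [hE, ZMod.card] at h
    exact (Nat.pow_right_injective (le_refl 2) h).symm
  have hq0 : 0 < q := by rw [hq]; positivity
  -- split by kernel dimension
  have h1 : ∑ S : E →ₗ[ZMod 2] F, 2 ^ kap S = ∑ d ∈ range (k + 1),
      ∑ S ∈ univ.filter (fun S : E →ₗ[ZMod 2] F =>
        Module.finrank (ZMod 2) (LinearMap.ker S) = d), 2 ^ kap S := by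
    symm
    apply Finset.sum_fiberwise_of_maps_to
    intro S _
    rw [mem_range]
    have := Submodule.finrank_le (LinearMap.ker S)
    omega
  have h2 : ∀ d, ∑ S ∈ univ.filter (fun S : E →ₗ[ZMod 2] F =>
        Module.finrank (ZMod 2) (LinearMap.ker S) = d), 2 ^ kap S =
      (univ.filter (fun S : E →ₗ[ZMod 2] F =>
        Module.finrank (ZMod 2) (LinearMap.ker S) = d)).card * 2 ^ (2 ^ d - 1) := by
    intro d
    rw [← smul_eq_mul, ← Finset.sum_const]
    apply Finset.sum_congr rfl
    intro S hS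
    have hd := (mem_filter.1 hS).2
    have := kap_eq S
    rw [hd] at this
    congr 1
    omega
  rw [h1, Finset.sum_congr rfl (fun d _ => h2 d)]
  -- d = 0
  have c0 : (univ.filter (fun S : E →ₗ[ZMod 2] F =>
        Module.finrank (ZMod 2) (LinearMap.ker S) = 0)).card * 2 ^ (2 ^ 0 - 1) ≤ 2 ^ q := by
    have := card_ker_dim (E := E) (F := F) k w 0 hE hF
    rw [mul_zero, zero_add, Nat.sub_zero, hkw] at this
    simpa using this
  -- d = k
  have ck : (univ.filter (fun S : E →ₗ[ZMod 2] F =>
        Module.finrank (ZMod 2) (LinearMap.ker S) = k)).card * 2 ^ (2 ^ k - 1) ≤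
        2 ^ (q - 1) := by
    have hone : (univ.filter (fun S : E →ₗ[ZMod 2] F =>
        Module.finrank (ZMod 2) (LinearMap.ker S) = k)).card ≤ 1 := by
      rw [Finset.card_le_one]
      have hz : ∀ S ∈ univ.filter (fun S : E →ₗ[ZMod 2] F =>
        Module.finrank (ZMod 2) (LinearMap.ker S) = k), S = 0 := by
        intro S hS
        have hd := (mem_filter.1 hS).2
        have htop : LinearMap.ker S = ⊤ := Submodule.eq_top_of_finrank_eq (by rw [hd, hfk])
        exact LinearMap.ker_eq_top.1 htop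
      intro a ha b hb
      rw [hz a ha, hz b hb]
    rw [← hq]
    calc _ ≤ 1 * 2 ^ (q - 1) := Nat.mul_le_mul_right _ hone
      _ = _ := one_mul _
  -- middle terms
  have cm : ∀ d ∈ range k, 1 ≤ d → (univ.filter (fun S : E →ₗ[ZMod 2] F =>
        Module.finrank (ZMod 2) (LinearMap.ker S) = d)).card * 2 ^ (2 ^ d - 1) ≤
        2 ^ (q - 1 - k) := by
    intro d hd hd1
    rw [mem_range] at hd
    have hb := arith_b k w d (by rw [hkw, hq]) hk hw hd1 (by omega)
    calc _ ≤ 2 ^ (k * d + (k - d) * w) * 2 ^ (2 ^ d - 1) :=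
          Nat.mul_le_mul_right _ (card_ker_dim k w d hE hF)
      _ = 2 ^ (k * d + (k - d) * w + (2 ^ d - 1)) := by rw [← pow_add]
      _ ≤ 2 ^ (q - 1 - k) := by
        apply Nat.pow_le_pow_right (by norm_num)
        have e1 : (k - d) * w + d * w = q := by
          rw [← Nat.add_mul, Nat.sub_add_cancel hd.le, hkw]
        have e2 : 0 < 2 ^ d := by positivity
        omega
  obtain ⟨j, hj⟩ : ∃ j, k = j + 1 := ⟨k - 1, by omega⟩
  rw [sum_range_succ]
  have hsum : ∑ d ∈ range k, (univ.filter (fun S : E →ₗ[ZMod 2] F =>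
        Module.finrank (ZMod 2) (LinearMap.ker S) = d)).card * 2 ^ (2 ^ d - 1) ≤
        2 ^ q + 2 ^ (q - 1) := by
    rw [hj, sum_range_succ']
    have hm : ∑ d ∈ range j, (univ.filter (fun S : E →ₗ[ZMod 2] F =>
        Module.finrank (ZMod 2) (LinearMap.ker S) = d + 1)).card * 2 ^ (2 ^ (d + 1) - 1) ≤
        2 ^ (q - 1) := by
      calc _ ≤ ∑ d ∈ range j, 2 ^ (q - 1 - k) := by
            apply Finset.sum_le_sum
            intro d hd
            rw [mem_range] at hd
            exact cm (d + 1) (by rw [mem_range]; omega) (by omega)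
        _ = j * 2 ^ (q - 1 - k) := by rw [Finset.sum_const, card_range, smul_eq_mul]
        _ ≤ 2 ^ k * 2 ^ (q - 1 - k) := by
            apply Nat.mul_le_mul_right
            have : k < 2 ^ k := Nat.lt_two_pow_self
            omega
        _ = 2 ^ (q - 1) := by
            rw [← pow_add]
            congr 1
            have : k < 2 ^ k := Nat.lt_two_pow_self
            omega
    omega
  have e3 : 2 ^ (q + 1) = 2 ^ q + 2 * 2 ^ (q - 1) := by
    have : q = (q - 1) + 1 := by omega
    rw [pow_succ]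
    have e4 : 2 ^ q = 2 * 2 ^ (q - 1) := by rw [← pow_succ']; congr 1
    omega
  omega

theorem card_graphEvent (E F : Type*) [AddCommGroup E] [Module (ZMod 2) E] [Fintype E]
    [DecidableEq E] [AddCommGroup F] [Module (ZMod 2) F] [Fintype F] [DecidableEq F]
    (k w q : ℕ) (hE : Fintype.card E = 2 ^ k)
    (hF : Fintype.card F = 2 ^ w) (hq : q = 2 ^ k) (hkw : k * w = q) (hk : 4 ≤ k)
    (hw : 6 * k ≤ w) : 2 ^ Fintype.card (E × F) ≤ 2 * (graphEvent E F).card := by
  classical
  have hfin : Finite (E →ₗ[ZMod 2] F) := DFunLike.finite _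
  have : Fintype (E →ₗ[ZMod 2] F) := Fintype.ofFinite _
  have hfk : Module.finrank (ZMod 2) E = k := by
    have h := Module.card_eq_pow_finrank (K := ZMod 2) (V := E)
    rw [hE, ZMod.card] at h
    exact (Nat.pow_right_injective (le_refl 2) h).symm
  have hfw : Module.finrank (ZMod 2) F = w := by
    have h := Module.card_eq_pow_finrank (K := ZMod 2) (V := F)
    rw [hF, ZMod.card] at h
    exact (Nat.pow_right_injective (le_refl 2) h).symm
  have htt : Fintype.card (E →ₗ[ZMod 2] F) = 2 ^ q := by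
    rw [Module.card_eq_pow_finrank (K := ZMod 2), ZMod.card, Module.finrank_linearMap, hfk, hfw,
      hkw]
  have h1 := second_moment (E := E) (F := F) (2 ^ k - 1) (by
    rw [hE]
    have : 0 < 2 ^ k := by positivity
    omega)
  have h2 := gamma_le (E := E) (F := F) k w q hE hF hq hkw hk hw
  rw [htt] at h1
  have h3 : 2 ^ q * 2 ^ Fintype.card (E × F) ≤ 2 ^ q * (2 * (graphEvent E F).card) := by
    calc _ ≤ _ := h1
      _ ≤ (graphEvent E F).card * 2 ^ (q + 1) := Nat.mul_le_mul_left _ h2
      _ = _ := by rw [pow_succ]; ring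
  exact Nat.le_of_mul_le_mul_left h3 (by positivity)

end Pool.Agent.Helper64.Cayley
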