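import Mathlib
import Pool.Agent.Helper64.Count3

/-!
# Random Cayley sum graphs of `F_2^n` at the critical dimensions

Assembly: for `n = k + 2^k / k`, with `k` a large power of two, a positive proportion of the sets
`A` contain the nonzero part of a `k`-dimensional subspace, while the complement of `A` contains
no clique of size `(127/128) 2^k`.
-/

set_option autoImplicit false
set_option linter.unusedSectionVars false

open Finset

namespace Pool.Agent.Helper64.Cayley

section General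

variable {G : Type*} [AddCommGroup G] [Module (ZMod 2) G] [Fintype G] [DecidableEq G]

/-- no clique of size `m` -/
noncomputable def noClique (m : ℕ) : Finset (Finset G) := by
  classical
  exact univ.filter (fun A : Finset G => ∀ X : Finset G, X.card = m → ¬ IsCl A X)

/-- no independent set of size `m` -/
noncomputable def noIndep (m : ℕ) : Finset (Finset G) := by
  classical
  exact univ.filter (fun A : Finset G => ∀ X : Finset G, X.card = m →
    ∃ x ∈ X, ∃ y ∈ X, x ≠ y ∧ x + y ∈ A)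

theorem mem_noClique {m : ℕ} (A : Finset G) :
    A ∈ noClique (G := G) m ↔ ∀ X : Finset G, X.card = m → ¬ IsCl A X := by
  unfold noClique; simp

theorem mem_noIndep {m : ℕ} (A : Finset G) :
    A ∈ noIndep (G := G) m ↔ ∀ X : Finset G, X.card = m →
    ∃ x ∈ X, ∃ y ∈ X, x ≠ y ∧ x + y ∈ A := by
  unfold noIndep; simp

theorem card_noIndep (m : ℕ) : (noIndep (G := G) m).card = (noClique (G := G) m).card := by
  classical
  have hinv : ∀ A : Finset G, Aᶜ ∈ noClique (G := G) m ↔ A ∈ noIndep (G := G) m := by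
    intro A
    rw [mem_noClique, mem_noIndep]
    refine forall_congr' fun X => forall_congr' fun _ => ?_
    unfold IsCl
    constructor
    · intro h
      push Not at h
      obtain ⟨x, hx, y, hy, hxy, h4⟩ := h
      rw [mem_compl, not_not] at h4
      exact ⟨x, hx, y, hy, hxy, h4⟩
    · rintro ⟨x, hx, y, hy, hxy, h4⟩ h
      have := h x hx y hy hxy
      rw [mem_compl] at this
      exact this h4
  apply Finset.card_bij (fun A _ => Aᶜ)
  · intro A hA; exact (hinv A).2 hA
  · intro A _ B _ h; exact compl_injective h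
  · intro B hB
    refine ⟨Bᶜ, ?_, compl_compl B⟩
    rw [← hinv, compl_compl]; exact hB

theorem isUpperSet_noIndep (m : ℕ) : IsUpperSet (noIndep (G := G) m : Set (Finset G)) := by
  intro A B hAB hA
  rw [mem_coe, mem_noIndep] at hA ⊢
  intro X hX
  obtain ⟨x, hx, y, hy, hxy, h4⟩ := hA X hX
  exact ⟨x, hx, y, hy, hxy, hAB h4⟩

theorem mem_avoid (S : Finset (Submodule (ZMod 2) G)) (A : Finset G) :
    A ∈ avoid S ↔ ∀ H ∈ S, ∃ h ∈ H, h ≠ 0 ∧ h ∉ A := by
  unfold avoid; simp

theorem card_noClique (k w q n s m : ℕ) (hq : q = 2 ^ k) (hkw : k * w = q) (hn : n = k + w)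
    (hG : Fintype.card G = 2 ^ n) (hk31 : 2 ^ 31 ≤ k) (hs : 2 ^ 18 ≤ s)
    (hsk : 64 * (s + 2) ≤ k) (hbig : 2 ^ 24 * 2 ^ s * (k * k) ≤ q)
    (hm1 : m ≤ q) (hm2 : 127 * q ≤ 128 * m) (hlast : (n + 1) * (q + 1) * 2 ^ 17 ≤ 2 ^ n) :
    2 ^ Fintype.card G ≤ 2 ^ 17 * (noClique (G := G) m).card := by
  classical
  have hfr : Module.finrank (ZMod 2) G = n := by
    have h := Module.card_eq_pow_finrank (K := ZMod 2) (V := G)
    rw [hG, ZMod.card] at h
    exact (Nat.pow_right_injective (le_refl 2) h).symm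
  have : Fintype (Submodule (ZMod 2) G) := Fintype.ofFinite _
  set S : Finset (Submodule (ZMod 2) G) :=
    univ.filter (fun H => Module.finrank (ZMod 2) H = k) with hS
  have hav := card_avoid_ge (G := G) k w q n (by omega) hq hkw hn hG S
    (fun H hH => (mem_filter.1 hH).2)
  have hsub : avoid S ⊆ noClique (G := G) m ∪ badSets (G := G) n q := by
    intro A hA
    rw [mem_union]
    by_cases hbad : A ∈ badSets (G := G) n q
    · exact Or.inr hbad
    left
    rw [mem_noClique]
    intro X hX hcl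
    have hXq : X.card ≤ q := by omega
    have hlight := light_of_not_bad hbad hcl hXq
    obtain ⟨H, hH, hsubH⟩ := structure_thm X n k w q s (le_of_eq hfr) hq hkw hn hk31 hs hsk hbig
      hXq (by rw [hX]; exact hm2) hlight
    obtain ⟨h, hh, h0, hhA⟩ := (mem_avoid S A).1 hA H
      (by rw [hS, mem_filter]; exact ⟨mem_univ _, hH⟩)
    have h1 := hsubH h hh
    exact hhA (erase_subset_of_isCl hcl (mem_erase.2 ⟨h0, h1⟩))
  have hc1 := (Finset.card_le_card hsub).trans (card_union_le _ _)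
  have hc2 := card_badSets (G := G) n q hG
  have hc3 : 2 ^ 17 * (badSets (G := G) n q).card ≤ 2 ^ Fintype.card G := by
    have h1 : 2 ^ n * (2 ^ 17 * (badSets (G := G) n q).card) ≤ 2 ^ n * 2 ^ Fintype.card G := by
      calc 2 ^ n * (2 ^ 17 * (badSets (G := G) n q).card)
          = 2 ^ 17 * ((badSets (G := G) n q).card * 2 ^ n) := by ring
        _ ≤ 2 ^ 17 * ((n + 1) * (q + 1) * 2 ^ Fintype.card G) := Nat.mul_le_mul_left _ hc2
        _ = ((n + 1) * (q + 1) * 2 ^ 17) * 2 ^ Fintype.card G := by ring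
        _ ≤ 2 ^ n * 2 ^ Fintype.card G := Nat.mul_le_mul_right _ hlast
    exact Nat.le_of_mul_le_mul_left h1 (by positivity)
  omega

end General

section Assembly

variable {E F : Type*} [AddCommGroup E] [Module (ZMod 2) E] [Fintype E] [DecidableEq E]
  [AddCommGroup F] [Module (ZMod 2) F] [Fintype F] [DecidableEq F]

theorem isUpperSet_graphEvent : IsUpperSet (graphEvent E F : Set (Finset (E × F))) := by
  intro A B hAB hA
  rw [mem_coe, mem_graphEvent] at hA ⊢
  obtain ⟨T, hT⟩ := hA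
  exact ⟨T, hT.trans hAB⟩

theorem card_good (k w q n s m : ℕ) (hE : Fintype.card E = 2 ^ k) (hF : Fintype.card F = 2 ^ w)
    (hq : q = 2 ^ k) (hkw : k * w = q) (hn : n = k + w)
    (hk31 : 2 ^ 31 ≤ k) (hs : 2 ^ 18 ≤ s)
    (hsk : 64 * (s + 2) ≤ k) (hbig : 2 ^ 24 * 2 ^ s * (k * k) ≤ q) (hw : 6 * k ≤ w)
    (hm1 : m ≤ q) (hm2 : 127 * q ≤ 128 * m) (hlast : (n + 1) * (q + 1) * 2 ^ 17 ≤ 2 ^ n) :
    2 ^ Fintype.card (E × F) ≤
      2 ^ 18 * (graphEvent E F ∩ noIndep (G := E × F) m).card := by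
  classical
  have hG : Fintype.card (E × F) = 2 ^ n := by
    rw [Fintype.card_prod, hE, hF, ← pow_add, hn]
  have h1 := card_graphEvent E F k w q hE hF hq hkw (by omega) hw
  have h2 := card_noClique (G := E × F) k w q n s m hq hkw hn hG hk31 hs hsk hbig hm1 hm2 hlast
  rw [← card_noIndep] at h2
  have h3 := (isUpperSet_graphEvent (E := E) (F := F)).le_card_inter_finset
    (isUpperSet_noIndep (G := E × F) m)
  have h4 : 2 ^ Fintype.card (E × F) * 2 ^ Fintype.card (E × F) ≤
      2 ^ Fintype.card (E × F) *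
        (2 ^ 18 * (graphEvent E F ∩ noIndep (G := E × F) m).card) := by
    calc 2 ^ Fintype.card (E × F) * 2 ^ Fintype.card (E × F)
        ≤ (2 * (graphEvent E F).card) * (2 ^ 17 * (noIndep (G := E × F) m).card) :=
          Nat.mul_le_mul h1 h2
      _ = 2 ^ 18 * ((graphEvent E F).card * (noIndep (G := E × F) m).card) := by ring
      _ ≤ 2 ^ 18 * (2 ^ Fintype.card (E × F) *
            (graphEvent E F ∩ noIndep (G := E × F) m).card) := Nat.mul_le_mul_left _ h3
      _ = _ := by ring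
  exact Nat.le_of_mul_le_mul_left h4 (by positivity)

/-- The Cayley sum graph. -/
abbrev cayleySum {G : Type*} [AddCommGroup G] (A : Finset G) : SimpleGraph G :=
  SimpleGraph.fromRel (fun x y : G => x + y ∈ A)

theorem cliqueNum_ge (A : Finset (E × F)) (hA : A ∈ graphEvent E F) :
    Fintype.card E ≤ (cayleySum A).cliqueNum := by
  obtain ⟨T, hT⟩ := (mem_graphEvent A).1 hA
  set X : Finset (E × F) := univ.image (fun x : E => (x, T x)) with hX
  have hXc : X.card = Fintype.card E := by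
    rw [hX, card_image_of_injective _ (fun x y h => (Prod.mk.inj h).1), Finset.card_univ]
  have hcl : (cayleySum A).IsClique (X : Set (E × F)) := by
    intro p hp p' hp' hne
    rw [mem_coe, hX, mem_image] at hp hp'
    obtain ⟨x, _, rfl⟩ := hp
    obtain ⟨y, _, rfl⟩ := hp'
    rw [SimpleGraph.fromRel_adj]
    refine ⟨hne, Or.inl (hT ?_)⟩
    unfold graphSet
    rw [mem_image]
    refine ⟨x + y, ?_, ?_⟩
    · rw [mem_filter]
      refine ⟨mem_univ _, fun h0 => hne ?_⟩
      have hxy : x = y := by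
        have := congrArg (fun z => z + y) h0
        simp only [add_assoc, add_self_zero, add_zero, zero_add] at this
        exact this
      rw [hxy]
    · rw [map_add]; rfl
  rw [← hXc]
  exact SimpleGraph.IsClique.card_le_cliqueNum (tc := hcl)

theorem card_le_of_noIndep {G : Type*} [AddCommGroup G] [Module (ZMod 2) G] [Fintype G]
    [DecidableEq G] (m : ℕ) (A : Finset G) (hA : A ∈ noIndep (G := G) (m + 1)) :
    Fintype.card G ≤ (cayleySum A).chromaticNumber.toNat * m := by
  classical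
  obtain ⟨C⟩ := (cayleySum A).colorable_chromaticNumber_of_fintype
  set c := (cayleySum A).chromaticNumber.toNat with hc
  have h1 : ∀ i : Fin c, (univ.filter (fun x : G => C x = i)).card ≤ m := by
    intro i
    by_contra hcon
    push Not at hcon
    obtain ⟨X, hX, hXc⟩ := Finset.exists_subset_card_eq (show m + 1 ≤ _ from hcon)
    obtain ⟨x, hx, y, hy, hxy, h4⟩ := (mem_noIndep A).1 hA X hXc
    have hadj : (cayleySum A).Adj x y := by
      rw [SimpleGraph.fromRel_adj]
      exact ⟨hxy, Or.inl h4⟩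
    have hCx := (mem_filter.1 (hX hx)).2
    have hCy := (mem_filter.1 (hX hy)).2
    exact C.valid hadj (hCx.trans hCy.symm)
  calc Fintype.card G = ∑ i : Fin c, (univ.filter (fun x : G => C x = i)).card := by
        rw [← Finset.card_univ]
        exact Finset.card_eq_sum_card_fiberwise (fun x _ => mem_univ _)
    _ ≤ ∑ i : Fin c, m := Finset.sum_le_sum fun i _ => h1 i
    _ = c * m := by rw [Finset.sum_const, smul_eq_mul, Finset.card_univ, Fintype.card_fin]

end Assembly

/-! ### Choice of the parameters -/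

theorem exists_params (N₀ : ℕ) : ∃ k w q n s p : ℕ, q = 2 ^ k ∧ k * w = q ∧ n = k + w ∧
    2 ^ 31 ≤ k ∧ 2 ^ 18 ≤ s ∧ 64 * (s + 2) ≤ k ∧ 2 ^ 24 * 2 ^ s * (k * k) ≤ q ∧ 6 * k ≤ w ∧
    q = 128 * (p + 1) ∧ (n + 1) * (q + 1) * 2 ^ 17 ≤ 2 ^ n ∧ N₀ ≤ n := by
  obtain ⟨s, hs⟩ : ∃ s : ℕ, s = 2 ^ 18 := ⟨_, rfl⟩
  obtain ⟨J, hJ⟩ : ∃ J : ℕ, J = 31 + N₀ := ⟨_, rfl⟩
  obtain ⟨k, hk⟩ : ∃ k : ℕ, k = 2 ^ J := ⟨_, rfl⟩
  -- lower bound for k
  have hkJ : 2 ^ 31 * (N₀ + 1) ≤ k := by
    rw [hk, hJ, pow_add]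
    apply Nat.mul_le_mul_left
    exact Nat.lt_two_pow_self
  have hJk : J ≤ k := by
    rw [hk]; exact (Nat.lt_two_pow_self).le
  obtain ⟨w, hw⟩ : ∃ w : ℕ, w = 2 ^ (k - J) := ⟨_, rfl⟩
  have hkw : k * w = 2 ^ k := by
    calc k * w = 2 ^ J * 2 ^ (k - J) := by rw [← hk, ← hw]
      _ = 2 ^ k := by rw [← pow_add]; congr 1; omega
  have h6 : 64 * k ≤ w := by
    calc 64 * k = 2 ^ (6 + J) := by rw [hk, pow_add]; norm_num
      _ ≤ w := by
        rw [hw]
        apply Nat.pow_le_pow_right (by norm_num)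
        omega
  refine ⟨k, w, 2 ^ k, k + w, s, 2 ^ (k - 7) - 1, rfl, hkw, rfl, by omega, by omega, by omega,
    ?_, by omega, ?_, ?_, by omega⟩
  · calc 2 ^ 24 * 2 ^ s * (k * k) = 2 ^ 24 * 2 ^ s * (2 ^ J * 2 ^ J) := by rw [← hk]
      _ = 2 ^ (24 + s + (J + J)) := by rw [pow_add, pow_add, pow_add]
      _ ≤ 2 ^ k := by
        apply Nat.pow_le_pow_right (by norm_num)
        omega
  · have h1 : 0 < 2 ^ (k - 7) := by positivity
    have h2 : 2 ^ k = 2 ^ (7 + (k - 7)) := by congr 1; omega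
    rw [h2, pow_add]
    have h3 : 2 ^ (k - 7) - 1 + 1 = 2 ^ (k - 7) := by omega
    rw [h3]; norm_num
  · have hw2 : w ≤ 2 ^ k := by
      rw [hw]; exact Nat.pow_le_pow_right (by norm_num) (by omega)
    have hk2 : k ≤ 2 ^ k := (Nat.lt_two_pow_self).le
    have h1 : k + w + 1 ≤ 2 ^ (k + 2) := by
      have : 2 ^ (k + 2) = 4 * 2 ^ k := by rw [pow_add]; ring
      have h0 : 0 < 2 ^ k := by positivity
      omega
    have h2 : 2 ^ k + 1 ≤ 2 ^ (k + 1) := by
      have : 2 ^ (k + 1) = 2 * 2 ^ k := by rw [pow_succ]; ring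
      have h0 : 0 < 2 ^ k := by positivity
      omega
    calc (k + w + 1) * (2 ^ k + 1) * 2 ^ 17 ≤ 2 ^ (k + 2) * 2 ^ (k + 1) * 2 ^ 17 := by gcongr
      _ = 2 ^ (k + 2 + (k + 1) + 17) := by rw [← pow_add, ← pow_add]
      _ ≤ 2 ^ (k + w) := by
        apply Nat.pow_le_pow_right (by norm_num)
        omega

end Pool.Agent.Helper64.Cayley
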