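import Mathlib

/-!
# An explicit, computable model `K` of the field with 343 elements

`K = GF(7)[t]/(t^3 - t^2 - 3)`, an element being a triple `(a, b, c)` standing for
`a + b t + c t^2`.
-/

set_option autoImplicit false

namespace Pool.Agent.Helper64.GF343

/-- `x^342` by an addition chain -/
def pw342 {M : Type*} [Mul M] (x : M) : M :=
  let x2 := x * x
  let x4 := x2 * x2
  let x8 := x4 * x4
  let x16 := x8 * x8
  let x32 := x16 * x16
  let x64 := x32 * x32
  let x128 := x64 * x64
  let x256 := x128 * x128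
  x2 * x4 * x16 * x64 * x256

theorem pw342_eq_pow {M : Type*} [Monoid M] (x : M) : pw342 x = x ^ 342 := by
  simp only [pw342, ← pow_two, ← pow_mul, ← pow_add]
  norm_num

/-- `x^171` by an addition chain -/
def pw171 {M : Type*} [Mul M] (x : M) : M :=
  let x2 := x * x
  let x4 := x2 * x2
  let x8 := x4 * x4
  let x16 := x8 * x8
  let x32 := x16 * x16
  let x64 := x32 * x32
  let x128 := x64 * x64
  x * x2 * x8 * x32 * x128

theorem pw171_eq_pow {M : Type*} [Monoid M] (x : M) : pw171 x = x ^ 171 := by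
  simp only [pw171, ← pow_two, ← pow_mul, ← pow_add, ← pow_succ']
  norm_num [← pow_succ', ← pow_add]

/-- `x^114` by an addition chain -/
def pw114 {M : Type*} [Mul M] (x : M) : M :=
  let x2 := x * x
  let x4 := x2 * x2
  let x8 := x4 * x4
  let x16 := x8 * x8
  let x32 := x16 * x16
  let x64 := x32 * x32
  x2 * x16 * x32 * x64

theorem pw114_eq_pow {M : Type*} [Monoid M] (x : M) : pw114 x = x ^ 114 := by
  simp only [pw114, ← pow_two, ← pow_mul, ← pow_add]
  norm_num

/-- GF(7)[t]/(t^3 - t^2 - 3); the element `a + b t + c t^2`. -/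
@[ext] structure K where
  /-- constant coefficient -/
  a : ZMod 7
  /-- coefficient of `t` -/
  b : ZMod 7
  /-- coefficient of `t^2` -/
  c : ZMod 7
deriving DecidableEq

namespace K

instance : Zero K := ⟨⟨0, 0, 0⟩⟩
instance : One K := ⟨⟨1, 0, 0⟩⟩
instance : Add K := ⟨fun x y => ⟨x.a + y.a, x.b + y.b, x.c + y.c⟩⟩
instance : Neg K := ⟨fun x => ⟨-x.a, -x.b, -x.c⟩⟩
instance : Mul K := ⟨fun x y =>
  ⟨x.a * y.a + 3 * (x.b * y.c + x.c * y.b) + 3 * (x.c * y.c),
   x.a * y.b + x.b * y.a + 3 * (x.c * y.c),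
   x.a * y.c + x.b * y.b + x.c * y.a + (x.b * y.c + x.c * y.b) + x.c * y.c⟩⟩

@[simp] theorem zero_a : (0 : K).a = 0 := rfl
@[simp] theorem zero_b : (0 : K).b = 0 := rfl
@[simp] theorem zero_c : (0 : K).c = 0 := rfl
@[simp] theorem one_a : (1 : K).a = 1 := rfl
@[simp] theorem one_b : (1 : K).b = 0 := rfl
@[simp] theorem one_c : (1 : K).c = 0 := rfl
@[simp] theorem add_a (x y : K) : (x + y).a = x.a + y.a := rfl
@[simp] theorem add_b (x y : K) : (x + y).b = x.b + y.b := rfl
@[simp] theorem add_c (x y : K) : (x + y).c = x.c + y.c := rfl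
@[simp] theorem neg_a (x : K) : (-x).a = -x.a := rfl
@[simp] theorem neg_b (x : K) : (-x).b = -x.b := rfl
@[simp] theorem neg_c (x : K) : (-x).c = -x.c := rfl
@[simp] theorem mul_a (x y : K) : (x * y).a =
  x.a * y.a + 3 * (x.b * y.c + x.c * y.b) + 3 * (x.c * y.c) := rfl
@[simp] theorem mul_b (x y : K) : (x * y).b = x.a * y.b + x.b * y.a + 3 * (x.c * y.c) := rfl
@[simp] theorem mul_c (x y : K) : (x * y).c =
  x.a * y.c + x.b * y.b + x.c * y.a + (x.b * y.c + x.c * y.b) + x.c * y.c := rfl

instance : CommRing K where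
  add_assoc x y z := by ext <;> simp [add_assoc]
  zero_add x := by ext <;> simp
  add_zero x := by ext <;> simp
  add_comm x y := by ext <;> simp [add_comm]
  neg_add_cancel x := by ext <;> simp
  mul_assoc x y z := by ext <;> simp <;> ring
  one_mul x := by ext <;> simp
  mul_one x := by ext <;> simp
  zero_mul x := by ext <;> simp
  mul_zero x := by ext <;> simp
  left_distrib x y z := by ext <;> simp <;> ring
  right_distrib x y z := by ext <;> simp <;> ring
  mul_comm x y := by ext <;> simp <;> ring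
  nsmul := nsmulRec
  zsmul := zsmulRec

/-- coordinates -/
def equivProd : K ≃ ZMod 7 × ZMod 7 × ZMod 7 where
  toFun x := (x.a, x.b, x.c)
  invFun p := ⟨p.1, p.2.1, p.2.2⟩
  left_inv _ := rfl
  right_inv _ := rfl

instance : Fintype K := Fintype.ofEquiv _ equivProd.symm

theorem card_K : Fintype.card K = 343 := by
  rw [Fintype.card_congr equivProd]; simp [ZMod.card]

set_option maxRecDepth 100000 in
theorem pw342_eq : ∀ x : K, x ≠ 0 → pw342 x = 1 := by decide +kernel

theorem pow_342 (x : K) (hx : x ≠ 0) : x ^ 342 = 1 := by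
  rw [← pw342_eq_pow]; exact pw342_eq x hx

theorem zero_ne_one' : (0 : K) ≠ 1 := by decide

instance : Nontrivial K := ⟨⟨0, 1, zero_ne_one'⟩⟩

noncomputable instance : Field K where
  inv x := x ^ 341
  exists_pair_ne := ⟨0, 1, zero_ne_one'⟩
  mul_inv_cancel x hx := by
    show x * x ^ 341 = 1
    rw [← pow_succ']; exact pow_342 x hx
  inv_zero := by show (0 : K) ^ 341 = 0; exact zero_pow (by norm_num)
  nnqsmul := _
  nnqsmul_def := fun _ _ => rfl
  qsmul := _
  qsmul_def := fun _ _ => rfl

theorem natCast_seven : ((7 : ℕ) : K) = 0 := by decide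

instance : Fact (Nat.Prime 7) := ⟨by norm_num⟩

instance : CharP K 7 := by
  refine ⟨fun n => ?_⟩
  constructor
  · intro h
    by_contra hn
    have hc : Nat.Coprime n 7 := by
      rw [Nat.coprime_comm]
      exact (Nat.Prime.coprime_iff_not_dvd (by norm_num)).2 hn
    have h1 : (1 : K) = 0 := by
      have hb := Nat.gcd_eq_gcd_ab n 7
      rw [hc] at hb
      have : ((1 : ℤ) : K) = ((n * Nat.gcdA n 7 + 7 * Nat.gcdB n 7 : ℤ) : K) := by
        exact_mod_cast congrArg (fun z : ℤ => (z : K)) hb
      push_cast at this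
      have h7 : (7 : K) = 0 := by exact_mod_cast natCast_seven
      rw [h, h7] at this
      simp at this
    exact zero_ne_one' h1.symm
  · rintro ⟨m, rfl⟩
    rw [Nat.cast_mul, natCast_seven, zero_mul]

end K

end Pool.Agent.Helper64.GF343
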